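import Mathlib
import Pool.Agent.V1181.BDiff
import Pool.Agent.V11298.CR.Fin

/-!
Randomly perturbed times: concentration of the sums.
-/

set_option autoImplicit false

open Finset

namespace Pool.Agent.V11298.SR

/-- The partial sums at perturbed times: the term number `n` of `f` is replaced by the term number
`n + t n`, `0 ≤ t n < W`. The index `i` stands for `n = i + 1`. -/
noncomputable def psum (h f : ℕ → ℂ) {X W : ℕ} (t : Fin X → Fin W) (N : ℕ) : ℂ :=
  ∑ i : Fin X, if (i : ℕ) < N then h (i + 1) * f (i + 1 + (t i : ℕ)) else 0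

/-- Concentration of a real valued sum. -/
theorem real_dev {X W : ℕ} (hX : 1 ≤ X) (hW : 1 ≤ W) (g : Fin X → Fin W → ℝ)
    (hg : ∀ i j, |g i j| ≤ 1) (m δ : ℝ) (hδ : 0 ≤ δ)
    (hm : |(∑ i, ∑ j, g i j) / W| ≤ m) :
    ((univ.filter fun t : Fin X → Fin W => (m + δ) * 1 ≤ |∑ i, g i (t i)|).card : ℝ) ≤
      2 * (Real.exp (-(δ ^ 2 / (8 * X))) * (W : ℝ) ^ X) := by
  classical
  have : Nonempty (Fin W) := ⟨⟨0, hW⟩⟩
  have hW0 : (0 : ℝ) < W := by exact_mod_cast hW
  have hX0 : (0 : ℝ) < X := by exact_mod_cast hX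
  have hmean : ∀ g' : Fin X → Fin W → ℝ, (∑ t : Fin X → Fin W, ∑ i, g' i (t i)) /
      (Fintype.card (Fin W) : ℝ) ^ (Fintype.card (Fin X)) = (∑ i, ∑ j, g' i j) / W := by
    intro g'
    rw [sum_comm]
    have h1 : ∀ i, (∑ t : Fin X → Fin W, g' i (t i)) * (Fintype.card (Fin W) : ℝ) =
        (Fintype.card (Fin W) : ℝ) ^ Fintype.card (Fin X) * ∑ j, g' i j := fun i =>
      Pool.Agent.V11298.CR.avg_one i (g' i)
    simp only [Fintype.card_fin] at h1 ⊢
    have hp : (0 : ℝ) < (W : ℝ) ^ X := by positivity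
    rw [div_eq_div_iff hp.ne' hW0.ne', sum_mul, sum_mul]
    refine sum_congr rfl fun i _ => ?_
    rw [h1 i]
    ring
  have hlow : ∀ g' : Fin X → Fin W → ℝ, (∀ i j, |g' i j| ≤ 1) →
      |(∑ i, ∑ j, g' i j) / W| ≤ m →
      ((univ.filter fun t : Fin X → Fin W => ∑ i, g' i (t i) ≤ -(m + δ)).card : ℝ) ≤
        Real.exp (-(δ ^ 2 / (8 * X))) * (W : ℝ) ^ X := by
    intro g' hg' hm'
    have h := Pool.Agent.V1181.BDiff.lower (ι := Fin X) (α := Fin W) (fun _ => 2)
      (fun t => ∑ i, g' i (t i)) (fun _ => by norm_num) (by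
        intro t i v
        have h1 : ∑ k, g' k (Function.update t i v k) - ∑ k, g' k (t k) = g' i v - g' i (t i) := by
          rw [← sum_sub_distrib, sum_eq_single i]
          · rw [Function.update_self]
          · intro k _ hk
            rw [Function.update_of_ne hk, sub_self]
          · intro hi
            exact absurd (mem_univ i) hi
        rw [h1]
        have h2 := abs_le.1 (hg' i v)
        have h3 := abs_le.1 (hg' i (t i))
        rw [abs_le]
        constructor <;> linarith)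
      (4 * X) δ (by positivity) (by simp; linarith) hδ
    rw [hmean g'] at h
    refine le_trans ?_ (h.trans (le_of_eq ?_))
    · refine Nat.cast_le.2 (card_le_card fun t ht => ?_)
      have h1 := (mem_filter.1 ht).2
      refine mem_filter.2 ⟨mem_univ _, ?_⟩
      have h2 := (abs_le.1 hm').1
      linarith
    · simp only [Fintype.card_fin]
      congr 3
      ring
  have h1 := hlow g hg hm
  have h2 := hlow (fun i j => -g i j) (fun i j => by rw [abs_neg]; exact hg i j) (by
    have : (∑ i, ∑ j, -g i j) / (W : ℝ) = -((∑ i, ∑ j, g i j) / W) := by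
      simp only [sum_neg_distrib, neg_div]
    rw [this, abs_neg]
    exact hm)
  have hsub : (univ.filter fun t : Fin X → Fin W => (m + δ) * 1 ≤ |∑ i, g i (t i)|) ⊆
      (univ.filter fun t : Fin X → Fin W => ∑ i, g i (t i) ≤ -(m + δ)) ∪
      (univ.filter fun t : Fin X → Fin W => ∑ i, -g i (t i) ≤ -(m + δ)) := by
    intro t ht
    have h3 := (mem_filter.1 ht).2
    rw [mul_one] at h3
    rw [mem_union, mem_filter, mem_filter]
    rcases le_abs.1 h3 with h4 | h4
    · right
      refine ⟨mem_univ _, ?_⟩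
      rw [sum_neg_distrib]
      linarith
    · left
      exact ⟨mem_univ _, by linarith⟩
  have h3 := (card_le_card hsub).trans (card_union_le _ _)
  have h4 : ((univ.filter fun t : Fin X → Fin W => (m + δ) * 1 ≤ |∑ i, g i (t i)|).card : ℝ) ≤
      ((univ.filter fun t : Fin X → Fin W => ∑ i, g i (t i) ≤ -(m + δ)).card : ℝ) +
      ((univ.filter fun t : Fin X → Fin W => ∑ i, -g i (t i) ≤ -(m + δ)).card : ℝ) := by
    exact_mod_cast h3
  linarith

/-- Concentration for one sequence and one length. -/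
theorem one_sum {h f : ℕ → ℂ} (hh : ∀ n, ‖h n‖ ≤ 1) (hf : ∀ n, ‖f n‖ ≤ 1) {X W N : ℕ}
    (hX : 1 ≤ X) (hW : 1 ≤ W) (hN : N ≤ X) {ε : ℝ} (hε : 0 < ε)
    (hm : ‖∑ n ∈ Icc 1 N, h n * ∑ j ∈ range W, f (n + j)‖ ≤ ε * W * X) :
    ((univ.filter fun t : Fin X → Fin W => 4 * ε * X ≤ ‖psum h f t N‖).card : ℝ) ≤
      4 * (Real.exp (-(ε ^ 2 * X / 8)) * (W : ℝ) ^ X) := by
  classical
  have hW0 : (0 : ℝ) < W := by exact_mod_cast hW
  have hX0 : (0 : ℝ) < X := by exact_mod_cast hX
  set c : Fin X → Fin W → ℂ := fun i j =>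
    if (i : ℕ) < N then h (i + 1) * f (i + 1 + (j : ℕ)) else 0 with hc
  have hcb : ∀ i j, ‖c i j‖ ≤ 1 := by
    intro i j
    simp only [hc]
    split_ifs
    · rw [norm_mul]
      exact mul_le_one₀ (hh _) (norm_nonneg _) (hf _)
    · simp
  have hsum : ∑ i, ∑ j, c i j = ∑ n ∈ Icc 1 N, h n * ∑ j ∈ range W, f (n + j) := by
    have h1 : ∀ i : Fin X, ∑ j, c i j =
        (fun n : ℕ => if n < N then h (n + 1) * ∑ j ∈ range W, f (n + 1 + j) else 0) i := by
      intro i
      simp only [hc]
      split_ifs with hi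
      · rw [mul_sum, ← Fin.sum_univ_eq_sum_range (fun j => h (i + 1) * f (i + 1 + j))]
      · simp
    rw [sum_congr rfl fun i _ => h1 i, Fin.sum_univ_eq_sum_range
      (fun n : ℕ => if n < N then h (n + 1) * ∑ j ∈ range W, f (n + 1 + j) else 0) X,
      ← sum_filter]
    have h2 : (range X).filter (fun n => n < N) = range N := by
      ext n
      rw [mem_filter, mem_range, mem_range]
      omega
    rw [h2]
    rw [show Icc 1 N = (range N).image (fun n => n + 1) from ?_, sum_image]
    · intro a _ b _ hab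
      exact Nat.succ_injective hab
    · ext n
      rw [mem_Icc, mem_image]
      constructor
      · rintro ⟨h3, h4⟩
        exact ⟨n - 1, mem_range.2 (by omega), by omega⟩
      · rintro ⟨a, ha, rfl⟩
        have := mem_range.1 ha
        omega
  have hre := real_dev hX hW (fun i j => (c i j).re)
    (fun i j => (Complex.abs_re_le_norm _).trans (hcb i j)) (ε * X) (ε * X) (by positivity) (by
      have h1 : ∑ i, ∑ j, (c i j).re = (∑ i, ∑ j, c i j).re := by simp
      rw [h1, hsum, abs_div, abs_of_pos hW0, div_le_iff₀ hW0]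
      exact (Complex.abs_re_le_norm _).trans (hm.trans (le_of_eq (by ring))))
  have him := real_dev hX hW (fun i j => (c i j).im)
    (fun i j => (Complex.abs_im_le_norm _).trans (hcb i j)) (ε * X) (ε * X) (by positivity) (by
      have h1 : ∑ i, ∑ j, (c i j).im = (∑ i, ∑ j, c i j).im := by simp
      rw [h1, hsum, abs_div, abs_of_pos hW0, div_le_iff₀ hW0]
      exact (Complex.abs_im_le_norm _).trans (hm.trans (le_of_eq (by ring))))
  have hexp : (ε * X) ^ 2 / (8 * X) = ε ^ 2 * X / 8 := by
    field_simp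
  rw [hexp] at hre him
  have hsub : (univ.filter fun t : Fin X → Fin W => 4 * ε * X ≤ ‖psum h f t N‖) ⊆
      (univ.filter fun t : Fin X → Fin W => (ε * X + ε * X) * 1 ≤ |∑ i, (c i (t i)).re|) ∪
      (univ.filter fun t : Fin X → Fin W => (ε * X + ε * X) * 1 ≤ |∑ i, (c i (t i)).im|) := by
    intro t ht
    have h3 := (mem_filter.1 ht).2
    have h4 : psum h f t N = ∑ i, c i (t i) := rfl
    rw [h4] at h3
    have h5 := Complex.norm_le_abs_re_add_abs_im (∑ i, c i (t i))
    rw [Complex.re_sum, Complex.im_sum] at h5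
    rw [mem_union, mem_filter, mem_filter]
    by_contra hcon
    push Not at hcon
    have h6 := hcon.1 (mem_univ _)
    have h7 := hcon.2 (mem_univ _)
    linarith
  have h3 := (card_le_card hsub).trans (card_union_le _ _)
  have h4 : ((univ.filter fun t : Fin X → Fin W => 4 * ε * X ≤ ‖psum h f t N‖).card : ℝ) ≤
      ((univ.filter fun t : Fin X → Fin W =>
        (ε * X + ε * X) * 1 ≤ |∑ i, (c i (t i)).re|).card : ℝ) +
      ((univ.filter fun t : Fin X → Fin W =>
        (ε * X + ε * X) * 1 ≤ |∑ i, (c i (t i)).im|).card : ℝ) := by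
    exact_mod_cast h3
  linarith

end Pool.Agent.V11298.SR
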