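import Mathlib
import Pool.Agent.V11298.SR.Cnc

/-!
Randomly perturbed times: families of sequences and sequences with few words.
-/

set_option autoImplicit false

open Finset

namespace Pool.Agent.V11298.SR

/-- The averages over windows of length `W` of arbitrary bounded sequences are almost orthogonal to
`h`. -/
def WinSmall (h : ℕ → ℂ) : Prop := ∀ ε : ℝ, 0 < ε → ∃ W₀ : ℕ, ∀ W : ℕ, W₀ ≤ W →
  ∃ X₀ : ℕ, ∀ X : ℕ, X₀ ≤ X → ∀ f : ℕ → ℂ, (∀ n, ‖f n‖ ≤ 1) → ∀ N : ℕ, N ≤ X →
    ‖∑ n ∈ Icc 1 N, h n * ∑ j ∈ range W, f (n + j)‖ ≤ ε * W * X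

open Classical in
/-- Exponentially large families. -/
theorem families {h : ℕ → ℂ} (hh : ∀ n, ‖h n‖ ≤ 1) (hE : WinSmall h) {ε : ℝ} (hε : 0 < ε) :
    ∃ c : ℝ, 0 < c ∧ ∃ W₀ : ℕ, ∀ W : ℕ, W₀ ≤ W → ∃ X₀ : ℕ, ∀ X : ℕ, X₀ ≤ X →
      ∀ (ι : Type) [Fintype ι] (f : ι → ℕ → ℂ), (Fintype.card ι : ℝ) ≤ Real.exp (c * X) →
      (∀ l n, ‖f l n‖ ≤ 1) →
      ((univ.filter fun t : Fin X → Fin W =>
        ¬ ∀ (l : ι) (N : ℕ), N ≤ X → ‖psum h (f l) t N‖ ≤ ε * X).card : ℝ) ≤
      Real.exp (-(c * X)) * (W : ℝ) ^ X := by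
  set δ : ℝ := ε / 4 with hδ
  have hδ0 : 0 < δ := by rw [hδ]; positivity
  set c : ℝ := δ ^ 2 / 32 with hc
  have hc0 : 0 < c := by rw [hc]; positivity
  obtain ⟨W₀, hW₀⟩ := hE δ hδ0
  refine ⟨c, hc0, max W₀ 1, fun W hW => ?_⟩
  have hW1 : 1 ≤ W := (le_max_right _ _).trans hW
  obtain ⟨X₀, hX₀⟩ := hW₀ W ((le_max_left _ _).trans hW)
  -- `4 (X + 1) ≤ exp (c X)` for large `X`
  have hlarge : ∀ᶠ X : ℕ in Filter.atTop, 8 * (X : ℝ) ≤ Real.exp (c * X) := by
    have h1 := (isLittleO_pow_exp_pos_mul_atTop 1 hc0).bound (show (0 : ℝ) < 1 / 8 by norm_num)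
    filter_upwards [(tendsto_natCast_atTop_atTop (R := ℝ)).eventually h1] with X hX
    rw [pow_one, Real.norm_of_nonneg (by positivity), Real.norm_of_nonneg (by positivity)] at hX
    linarith
  obtain ⟨X₁, hX₁⟩ := Filter.eventually_atTop.1 hlarge
  refine ⟨max (max X₀ X₁) 1, fun X hX ι _ f hL hf => ?_⟩
  have hX1 : 1 ≤ X := (le_max_right _ _).trans hX
  have hX0' : X₀ ≤ X := (le_max_left _ _).trans ((le_max_left _ _).trans hX)
  have hX1' : X₁ ≤ X := (le_max_right _ _).trans ((le_max_left _ _).trans hX)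
  have hXr : (1 : ℝ) ≤ X := by exact_mod_cast hX1
  have hsub : (univ.filter fun t : Fin X → Fin W =>
        ¬ ∀ (l : ι) (N : ℕ), N ≤ X → ‖psum h (f l) t N‖ ≤ ε * X) ⊆
      (univ : Finset ι).biUnion fun l => (range (X + 1)).biUnion fun N =>
        univ.filter fun t : Fin X → Fin W => 4 * δ * X ≤ ‖psum h (f l) t N‖ := by
    intro t ht
    have h1 := (mem_filter.1 ht).2
    push Not at h1
    obtain ⟨l, N, hN, hlN⟩ := h1
    refine mem_biUnion.2 ⟨l, mem_univ _, mem_biUnion.2 ⟨N, mem_range.2 (by omega),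
      mem_filter.2 ⟨mem_univ _, ?_⟩⟩⟩
    have : 4 * δ * X = ε * X := by rw [hδ]; ring
    rw [this]
    exact hlN.le
  have hone : ∀ (l : ι), ∀ N ∈ range (X + 1),
      ((univ.filter fun t : Fin X → Fin W => 4 * δ * X ≤ ‖psum h (f l) t N‖).card : ℝ) ≤
      4 * (Real.exp (-(δ ^ 2 * X / 8)) * (W : ℝ) ^ X) := by
    intro l N hN
    have hN' : N ≤ X := by have := mem_range.1 hN; omega
    refine le_trans (le_of_eq ?_) (one_sum hh (hf l) hX1 hW1 hN' hδ0 (hX₀ X hX0' (f l) (hf l) N hN'))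
    congr!
  have hcount : ((univ.filter fun t : Fin X → Fin W =>
        ¬ ∀ (l : ι) (N : ℕ), N ≤ X → ‖psum h (f l) t N‖ ≤ ε * X).card : ℝ) ≤
      ∑ l : ι, ∑ N ∈ range (X + 1), 4 * (Real.exp (-(δ ^ 2 * X / 8)) * (W : ℝ) ^ X) := by
    calc _ ≤ (((univ : Finset ι).biUnion fun l => (range (X + 1)).biUnion fun N =>
        univ.filter fun t : Fin X → Fin W => 4 * δ * X ≤ ‖psum h (f l) t N‖).card : ℝ) :=
          Nat.cast_le.2 (card_le_card hsub)
      _ ≤ ((∑ l : ι, ∑ N ∈ range (X + 1),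
        (univ.filter fun t : Fin X → Fin W => 4 * δ * X ≤ ‖psum h (f l) t N‖).card : ℕ) : ℝ) :=
          Nat.cast_le.2 (card_biUnion_le.trans (sum_le_sum fun l _ => card_biUnion_le))
      _ ≤ _ := by
          push_cast
          exact sum_le_sum fun l _ => sum_le_sum fun N hN => hone l N hN
  refine hcount.trans ?_
  rw [sum_const, sum_const, card_univ, card_range, nsmul_eq_mul, nsmul_eq_mul]
  push_cast
  have h8 := hX₁ X hX1'
  have hX2 : ((X : ℝ) + 1) * 4 ≤ Real.exp (c * X) := by linarith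
  have hWp : (0 : ℝ) < (W : ℝ) ^ X := by
    have : (0 : ℝ) < W := by exact_mod_cast hW1
    positivity
  have hδc : δ ^ 2 * X / 8 = 4 * c * X := by rw [hc]; ring
  rw [hδc]
  calc (Fintype.card ι : ℝ) * (((X : ℝ) + 1) * (4 * (Real.exp (-(4 * c * X)) * (W : ℝ) ^ X)))
      = (Fintype.card ι : ℝ) * ((((X : ℝ) + 1) * 4) * (Real.exp (-(4 * c * X)) * (W : ℝ) ^ X)) := by ring
    _ ≤ Real.exp (c * X) * (Real.exp (c * X) * (Real.exp (-(4 * c * X)) * (W : ℝ) ^ X)) := by
        refine mul_le_mul hL ?_ (by positivity) (by positivity)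
        exact mul_le_mul_of_nonneg_right hX2 (by positivity)
    _ = (Real.exp (c * X) * Real.exp (c * X) * Real.exp (-(4 * c * X))) * (W : ℝ) ^ X := by ring
    _ = Real.exp (-(2 * c * X)) * (W : ℝ) ^ X := by
        rw [← Real.exp_add, ← Real.exp_add]
        congr 2
        ring
    _ ≤ Real.exp (-(c * X)) * (W : ℝ) ^ X := by
        refine mul_le_mul_of_nonneg_right (Real.exp_le_exp.2 ?_) hWp.le
        have : 0 ≤ c * X := by positivity
        linarith

/-- The sequence `w` has at most `B` different words of length `L` at the first `M` places. -/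
def FewWords {q : ℕ} (L B M : ℕ) (w : ℕ → Fin q) : Prop :=
  ((range M).image fun i => fun j : Fin L => w (i + j)).card ≤ B

open Classical in
/-- The number of beginnings of sequences with few words. -/
theorem card_few {q L B m : ℕ} (hL : 1 ≤ L) (hB : 1 ≤ B) :
    ((univ.filter fun u : Fin (m * L) → Fin q => ∃ w : ℕ → Fin q, FewWords L B (m * L) w ∧
      ∀ i : Fin (m * L), u i = w i).card) ≤ (q ^ L) ^ B * B ^ m := by
  have hdiv : ∀ i : Fin (m * L), (i : ℕ) / L < m := fun i =>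
    Nat.div_lt_of_lt_mul (lt_of_lt_of_eq i.2 (mul_comm m L))
  have hmod : ∀ i : Fin (m * L), (i : ℕ) % L < L := fun i => Nat.mod_lt _ hL
  have hsub : (univ.filter fun u : Fin (m * L) → Fin q => ∃ w : ℕ → Fin q,
      FewWords L B (m * L) w ∧ ∀ i : Fin (m * L), u i = w i) ⊆
      (univ : Finset ((Fin B → Fin L → Fin q) × (Fin m → Fin B))).image
        fun y => fun i : Fin (m * L) => y.1 (y.2 ⟨i / L, hdiv i⟩) ⟨i % L, hmod i⟩ := by
    intro u hu
    obtain ⟨w, hw, huw⟩ := (mem_filter.1 hu).2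
    set Wd := (range (m * L)).image fun i => fun j : Fin L => w (i + j) with hWd
    have hcard : Wd.card ≤ B := hw
    -- an enumeration of the words
    have hex : ∃ D : Fin B → Fin L → Fin q, ∀ x ∈ Wd, ∃ b, D b = x := by
      refine ⟨fun b => if hb : (b : ℕ) < Wd.card then (Wd.equivFin.symm ⟨b, hb⟩ : Fin L → Fin q)
        else fun j => w j, fun x hx => ?_⟩
      have h1 := (Wd.equivFin ⟨x, hx⟩).2
      refine ⟨⟨Wd.equivFin ⟨x, hx⟩, lt_of_lt_of_le h1 hcard⟩, ?_⟩
      simp only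
      rw [dif_pos h1]
      simp
    obtain ⟨D, hD⟩ := hex
    have hex2 : ∀ k : Fin m, ∃ b, D b = fun j : Fin L => w (k * L + j) := by
      intro k
      refine hD _ (mem_image.2 ⟨k * L, mem_range.2 ?_, rfl⟩)
      exact Nat.mul_lt_mul_of_pos_right k.2 hL
    choose s hs using hex2
    refine mem_image.2 ⟨(D, s), mem_univ _, ?_⟩
    funext i
    rw [huw i]
    simp only
    rw [hs]
    simp only
    congr 1
    have := Nat.div_add_mod (i : ℕ) L
    rw [mul_comm]
    exact this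
  refine (card_le_card hsub).trans (card_image_le.trans (le_of_eq ?_))
  simp [Fintype.card_prod]

theorem few_mono {q L B M M' : ℕ} {w : ℕ → Fin q} (h : FewWords L B M w) (hM : M' ≤ M) :
    FewWords L B M' w :=
  (card_le_card (image_subset_image (range_subset_range.2 hM))).trans h

open Classical in
/-- All sequences with few words at the same time. -/
theorem words {h : ℕ → ℂ} (hh : ∀ n, ‖h n‖ ≤ 1) (hE : WinSmall h) {ε : ℝ} (hε : 0 < ε) (q : ℕ) :
    ∃ c : ℝ, 0 < c ∧ ∃ W₀ : ℕ, ∀ W : ℕ, W₀ ≤ W → ∀ L B : ℕ, 1 ≤ L → 1 ≤ B →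
      Real.log B ≤ c * L → ∃ X₀ : ℕ, ∀ X : ℕ, X₀ ≤ X →
      ((univ.filter fun t : Fin X → Fin W =>
        ¬ ∀ w : ℕ → Fin q, FewWords L B (2 * X) w → ∀ v : Fin q → ℂ, (∀ a, ‖v a‖ ≤ 1) →
          ∀ N : ℕ, N ≤ X → ‖psum h (fun n => v (w n)) t N‖ ≤ ε * X).card : ℝ) ≤
      Real.exp (-(c * X)) * (W : ℝ) ^ X := by
  obtain ⟨c, hc, W₀, hW₀⟩ := families hh hE (ε := ε / (q + 1)) (by positivity)
  refine ⟨c / 4, by positivity, W₀, fun W hW L B hL hB hLB => ?_⟩
  obtain ⟨X₀, hX₀⟩ := hW₀ W hW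
  have hL0 : (0 : ℝ) < L := by exact_mod_cast hL
  set C₁ : ℝ := q * (((q : ℝ) ^ L) ^ B) * Real.exp (c / 4 * (W + L)) with hC₁
  -- large `X`
  have hlarge : ∀ᶠ X : ℕ in Filter.atTop, C₁ ≤ Real.exp (c / 2 * X) := by
    have h1 : Filter.Tendsto (fun X : ℕ => Real.exp (c / 2 * X)) Filter.atTop Filter.atTop :=
      Real.tendsto_exp_atTop.comp ((Filter.tendsto_id.const_mul_atTop (by positivity)).comp
        tendsto_natCast_atTop_atTop)
    exact h1.eventually_ge_atTop C₁
  obtain ⟨X₁, hX₁⟩ := Filter.eventually_atTop.1 hlarge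
  refine ⟨max (max X₀ X₁) (W + L + 1), fun X hX => ?_⟩
  have hX0' : X₀ ≤ X := (le_max_left _ _).trans ((le_max_left _ _).trans hX)
  have hX1' : X₁ ≤ X := (le_max_right _ _).trans ((le_max_left _ _).trans hX)
  have hX2' : W + L + 1 ≤ X := (le_max_right _ _).trans hX
  set m := (X + W) / L + 1 with hm
  have hmL1 : X + W < m * L := by
    have := Nat.lt_mul_div_succ (X + W) (show 0 < L from hL)
    rw [hm, mul_comm]
    exact this
  have hmL2 : m * L ≤ X + W + L := by
    have := Nat.div_mul_le_self (X + W) L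
    rw [hm, add_mul, one_mul]
    omega
  set 𝒢 := univ.filter fun u : Fin (m * L) → Fin q => ∃ w : ℕ → Fin q, FewWords L B (m * L) w ∧
      ∀ i : Fin (m * L), u i = w i with h𝒢
  set F : (𝒢 × Fin q) → ℕ → ℂ := fun y n =>
    if hn : n < m * L then (if (y.1 : Fin (m * L) → Fin q) ⟨n, hn⟩ = y.2 then 1 else 0) else 0
    with hF
  have hFb : ∀ y n, ‖F y n‖ ≤ 1 := by
    intro y n
    simp only [hF]
    split_ifs <;> simp
  have hcard : (Fintype.card (𝒢 × Fin q) : ℝ) ≤ Real.exp (c * X) := by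
    have h1 : (𝒢.card : ℝ) ≤ ((q : ℝ) ^ L) ^ B * (B : ℝ) ^ m := by
      exact_mod_cast card_few hL hB
    have hB0 : (0 : ℝ) < B := by exact_mod_cast hB
    have hlogB : 0 ≤ Real.log B := Real.log_nonneg (by exact_mod_cast hB)
    have h2 : (B : ℝ) ^ m ≤ Real.exp (c / 4 * (W + L)) * Real.exp (c / 4 * X) := by
      rw [← Real.exp_add]
      have e1 : (B : ℝ) ^ m = Real.exp (m * Real.log B) := by
        rw [mul_comm, Real.exp_mul, Real.exp_log hB0, Real.rpow_natCast]
      rw [e1]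
      refine Real.exp_le_exp.2 ?_
      have e2 : (m : ℝ) * L ≤ X + W + L := by exact_mod_cast hmL2
      calc (m : ℝ) * Real.log B ≤ m * (c / 4 * L) := mul_le_mul_of_nonneg_left hLB (by positivity)
        _ = c / 4 * (m * L) := by ring
        _ ≤ c / 4 * (X + W + L) := mul_le_mul_of_nonneg_left e2 (by positivity)
        _ = _ := by ring
    have h3 : (Fintype.card (𝒢 × Fin q) : ℝ) = 𝒢.card * q := by
      simp [Fintype.card_prod]
    rw [h3]
    calc (𝒢.card : ℝ) * q ≤ (((q : ℝ) ^ L) ^ B * (Real.exp (c / 4 * (W + L)) *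
          Real.exp (c / 4 * X))) * q := by
          refine mul_le_mul_of_nonneg_right (h1.trans ?_) (by positivity)
          exact mul_le_mul_of_nonneg_left h2 (by positivity)
      _ = C₁ * Real.exp (c / 4 * X) := by rw [hC₁]; ring
      _ ≤ Real.exp (c / 2 * X) * Real.exp (c / 4 * X) :=
          mul_le_mul_of_nonneg_right (hX₁ X hX1') (by positivity)
      _ = Real.exp (3 / 4 * (c * X)) := by rw [← Real.exp_add]; congr 1; ring
      _ ≤ Real.exp (c * X) := by
          refine Real.exp_le_exp.2 ?_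
          have : 0 ≤ c * (X : ℝ) := by positivity
          linarith
  have hfam := hX₀ X hX0' (𝒢 × Fin q) F hcard hFb
  refine le_trans ?_ (hfam.trans ?_)
  · refine Nat.cast_le.2 (card_le_card fun t ht => ?_)
    have h1 := (mem_filter.1 ht).2
    refine mem_filter.2 ⟨mem_univ _, fun hall => h1 ?_⟩
    intro w hw v hv N hN
    have hwm : FewWords L B (m * L) w := few_mono hw (by omega)
    set u : 𝒢 := ⟨fun i => w i, mem_filter.2 ⟨mem_univ _, w, hwm, fun i => rfl⟩⟩ with hu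
    have hdec : psum h (fun n => v (w n)) t N = ∑ a, v a * psum h (F (u, a)) t N := by
      simp only [psum, mul_sum]
      rw [sum_comm]
      refine sum_congr rfl fun i _ => ?_
      by_cases hi : (i : ℕ) < N
      · have hlt : (i : ℕ) + 1 + (t i : ℕ) < m * L := by
          have := (t i).2
          have := i.2
          omega
        simp only [if_pos hi, hF]
        have h2 : ∀ a : Fin q, v a * (h (i + 1) * (if hn : (i : ℕ) + 1 + (t i : ℕ) < m * L then
            (if (u : Fin (m * L) → Fin q) ⟨(i : ℕ) + 1 + (t i : ℕ), hn⟩ = a then (1 : ℂ) else 0)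
            else 0)) = if w ((i : ℕ) + 1 + (t i : ℕ)) = a then v a * h (i + 1) else 0 := by
          intro a
          rw [dif_pos hlt]
          have h3 : (u : Fin (m * L) → Fin q) ⟨(i : ℕ) + 1 + (t i : ℕ), hlt⟩ =
            w ((i : ℕ) + 1 + (t i : ℕ)) := rfl
          rw [h3]
          by_cases h4 : w ((i : ℕ) + 1 + (t i : ℕ)) = a
          · rw [if_pos h4, if_pos h4, mul_one]
          · rw [if_neg h4, if_neg h4, mul_zero, mul_zero]
        rw [sum_congr rfl fun a _ => h2 a, sum_ite_eq, if_pos (mem_univ _)]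
        ring
      · simp [if_neg hi]
    rw [hdec]
    calc ‖∑ a, v a * psum h (F (u, a)) t N‖ ≤ ∑ a, ‖v a * psum h (F (u, a)) t N‖ :=
          norm_sum_le _ _
      _ ≤ ∑ _a : Fin q, ε / (q + 1) * X := by
          refine sum_le_sum fun a _ => ?_
          rw [norm_mul]
          calc ‖v a‖ * ‖psum h (F (u, a)) t N‖ ≤ 1 * (ε / (q + 1) * X) :=
                mul_le_mul (hv a) (hall (u, a) N hN) (norm_nonneg _) (by norm_num)
            _ = _ := one_mul _
      _ = q * (ε / (q + 1) * X) := by simp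
      _ ≤ ε * X := by
          have h5 : (q : ℝ) * (ε / (q + 1)) ≤ ε := by
            rw [mul_div_assoc', div_le_iff₀ (by positivity)]
            nlinarith
          calc (q : ℝ) * (ε / (q + 1) * X) = (q * (ε / (q + 1))) * X := by ring
            _ ≤ _ := mul_le_mul_of_nonneg_right h5 (by positivity)
  · refine mul_le_mul_of_nonneg_right (Real.exp_le_exp.2 ?_) (by positivity)
    have : 0 ≤ c * (X : ℝ) := by positivity
    linarith

end Pool.Agent.V11298.SR
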