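import Pool.Agent.V11298.SR.Dua

/-!
Correlations of a randomly perturbed sequence.
-/

set_option autoImplicit false

open Finset

namespace Pool.Agent.V11298.SR

/-- The perturbed sequence: `l (m + t m)` for `1 ≤ m ≤ X`, and `0` elsewhere; the index `i : Fin X`
stands for `m = i + 1`. -/
noncomputable def pert (l : ℕ → ℝ) {X W : ℕ} (t : Fin X → Fin W) (m : ℕ) : ℝ :=
  if h : 1 ≤ m ∧ m ≤ X then l (m + (t ⟨m - 1, by omega⟩ : ℕ)) else 0

/-- The correlations of the perturbed sequence. -/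
noncomputable def corr (l : ℕ → ℝ) {X W : ℕ} (t : Fin X → Fin W) (A : Finset ℕ) (N : ℕ) : ℝ :=
  ∑ n ∈ Icc 1 N, ∏ a ∈ A, pert l t (n + a)

theorem pert_le {l : ℕ → ℝ} (hl : ∀ n, |l n| ≤ 1) {X W : ℕ} (t : Fin X → Fin W) (m : ℕ) :
    |pert l t m| ≤ 1 := by
  unfold pert
  split_ifs
  · exact hl _
  · simp

theorem prod_le {l : ℕ → ℝ} (hl : ∀ n, |l n| ≤ 1) {X W : ℕ} (t : Fin X → Fin W) (A : Finset ℕ)
    (n : ℕ) : |∏ a ∈ A, pert l t (n + a)| ≤ 1 := by
  rw [abs_prod]
  exact prod_le_one (fun _ _ => abs_nonneg _) fun a _ => pert_le hl t _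

theorem pert_update (l : ℕ → ℝ) {X W : ℕ} (t : Fin X → Fin W) (i : Fin X) (v : Fin W) (m : ℕ)
    (hm : m ≠ i + 1) : pert l (Function.update t i v) m = pert l t m := by
  unfold pert
  split_ifs with h
  · rw [Function.update_of_ne]
    intro h2
    have := congrArg Fin.val h2
    simp only at this
    omega
  · rfl

theorem swap {X W : ℕ} (i : Fin X) (G : (Fin X → Fin W) → ℝ) :
    ∑ t : Fin X → Fin W, ∑ j : Fin W, G (Function.update t i j) = W * ∑ t, G t := by
  rw [← Finset.sum_product']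
  have h : ∑ p ∈ (univ : Finset (Fin X → Fin W)) ×ˢ (univ : Finset (Fin W)),
      G (Function.update p.1 i p.2) =
      ∑ p ∈ (univ : Finset (Fin X → Fin W)) ×ˢ (univ : Finset (Fin W)), G p.1 := by
    refine sum_bij' (fun p _ => (Function.update p.1 i p.2, p.1 i))
      (fun p _ => (Function.update p.1 i p.2, p.1 i)) ?_ ?_ ?_ ?_ ?_
    · intro p _; simp
    · intro p _; simp
    · intro p _; simp
    · intro p _; simp
    · intro p _; rfl
  rw [h, Finset.sum_product]
  simp [Finset.mul_sum]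

theorem mean_le {l : ℕ → ℝ} (hl : ∀ n, |l n| ≤ 1) {X W N : ℕ} {ε : ℝ} (hW : 1 ≤ W)
    (hE : ∀ F : ℕ → ℂ, (∀ n, ‖F n‖ ≤ 1) →
      ‖∑ n ∈ Icc 1 X, F n * ∑ j ∈ range W, ((l (n + j) : ℝ) : ℂ)‖ ≤ ε * W * X)
    {A : Finset ℕ} {a₀ : ℕ} (ha : a₀ ∈ A) :
    |(∑ t : Fin X → Fin W, corr l t A N) / (W : ℝ) ^ X| ≤ ε * X := by
  have hW0 : (0 : ℝ) < W := by exact_mod_cast hW
  set u : (Fin X → Fin W) → ℕ → ℝ := fun t n => ∏ a ∈ A.erase a₀, pert l t (n + a) with hu
  have hub : ∀ t n, |u t n| ≤ 1 := fun t n => prod_le hl t _ n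
  set B : ℕ → ℝ := fun m => ∑ j ∈ range W, l (m + j) with hB
  have hprod : ∀ (t : Fin X → Fin W) (n : ℕ), ∏ a ∈ A, pert l t (n + a) =
      pert l t (n + a₀) * u t n := fun t n => (mul_prod_erase A _ ha).symm
  have key : (W : ℝ) * ∑ t : Fin X → Fin W, corr l t A N =
      ∑ t : Fin X → Fin W, ∑ n ∈ Icc 1 N, if n + a₀ ≤ X then u t n * B (n + a₀) else 0 := by
    simp only [corr]
    rw [sum_comm, sum_comm (s := (univ : Finset (Fin X → Fin W))), mul_sum]
    refine sum_congr rfl fun n hn => ?_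
    have hn1 := (mem_Icc.1 hn).1
    by_cases hnX : n + a₀ ≤ X
    · simp only [if_pos hnX]
      rw [← swap (⟨n + a₀ - 1, by omega⟩ : Fin X) (fun t => ∏ a ∈ A, pert l t (n + a))]
      refine sum_congr rfl fun t _ => ?_
      rw [hB, mul_sum]
      rw [← Fin.sum_univ_eq_sum_range (fun j => u t n * l (n + a₀ + j)) W]
      refine sum_congr rfl fun j _ => ?_
      rw [hprod]
      have h1 : u (Function.update t ⟨n + a₀ - 1, by omega⟩ j) n = u t n := by
        simp only [hu]
        refine prod_congr rfl fun a haa => ?_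
        refine pert_update l t _ j _ ?_
        have := (mem_erase.1 haa).1
        simp only
        omega
      have h2 : pert l (Function.update t ⟨n + a₀ - 1, by omega⟩ j) (n + a₀) =
          l (n + a₀ + (j : ℕ)) := by
        unfold pert
        rw [dif_pos ⟨by omega, hnX⟩, Function.update_self]
      rw [h1, h2]
      ring
    · simp only [if_neg hnX, sum_const_zero]
      rw [sum_eq_zero, mul_zero]
      intro t _
      rw [hprod]
      have h2 : pert l t (n + a₀) = 0 := by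
        unfold pert
        rw [dif_neg (by omega)]
      rw [h2, zero_mul]
  have hone : ∀ t : Fin X → Fin W,
      |∑ n ∈ Icc 1 N, if n + a₀ ≤ X then u t n * B (n + a₀) else 0| ≤ ε * W * X := by
    intro t
    set Fr : ℕ → ℝ := fun m => if a₀ < m ∧ m - a₀ ≤ N then u t (m - a₀) else 0 with hFr
    have h1 : ∑ n ∈ Icc 1 N, (if n + a₀ ≤ X then u t n * B (n + a₀) else 0) =
        ∑ m ∈ Icc 1 X, Fr m * B m := by
      rw [← sum_filter]
      have h2 : ∑ m ∈ Icc 1 X, Fr m * B m =
          ∑ m ∈ (Icc 1 X).filter (fun m => a₀ < m ∧ m - a₀ ≤ N), u t (m - a₀) * B m := by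
        rw [sum_filter]
        refine sum_congr rfl fun m _ => ?_
        simp only [hFr]
        split_ifs
        · rfl
        · rw [zero_mul]
      rw [h2]
      refine sum_bij (fun n _ => n + a₀) ?_ ?_ ?_ ?_
      · intro n hn
        rw [mem_filter, mem_Icc] at hn
        rw [mem_filter, mem_Icc]
        omega
      · intro n _ n' _ h3
        omega
      · intro m hm
        rw [mem_filter, mem_Icc] at hm
        refine ⟨m - a₀, ?_, ?_⟩
        · rw [mem_filter, mem_Icc]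
          omega
        · omega
      · intro n _
        rw [Nat.add_sub_cancel]
    rw [h1]
    have h2 := hE (fun m => ((Fr m : ℝ) : ℂ)) (by
      intro m
      rw [Complex.norm_real, Real.norm_eq_abs]
      simp only [hFr]
      split_ifs
      · exact hub _ _
      · simp)
    have h3 : ∑ n ∈ Icc 1 X, ((Fr n : ℝ) : ℂ) * ∑ j ∈ range W, ((l (n + j) : ℝ) : ℂ) =
        ((∑ m ∈ Icc 1 X, Fr m * B m : ℝ) : ℂ) := by
      simp only [hB]
      push_cast
      rfl
    rw [h3, Complex.norm_real, Real.norm_eq_abs] at h2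
    exact h2
  have h4 : |(W : ℝ) * ∑ t : Fin X → Fin W, corr l t A N| ≤ (W : ℝ) ^ X * (ε * W * X) := by
    rw [key]
    refine (abs_sum_le_sum_abs _ _).trans ((sum_le_sum fun t _ => hone t).trans (le_of_eq ?_))
    simp
  rw [abs_mul, abs_of_pos hW0] at h4
  rw [abs_div, abs_of_pos (show (0 : ℝ) < (W : ℝ) ^ X by positivity), div_le_iff₀ (by positivity)]
  have h5 : (W : ℝ) * |∑ t : Fin X → Fin W, corr l t A N| ≤ W * (ε * X * (W : ℝ) ^ X) := by
    calc _ ≤ (W : ℝ) ^ X * (ε * W * X) := h4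
      _ = _ := by ring
  exact le_of_mul_le_mul_left h5 hW0

theorem corr_update {l : ℕ → ℝ} (hl : ∀ n, |l n| ≤ 1) {X W : ℕ} (t : Fin X → Fin W) (i : Fin X)
    (v : Fin W) (A : Finset ℕ) (N : ℕ) :
    |corr l (Function.update t i v) A N - corr l t A N| ≤ 2 * A.card := by
  classical
  unfold corr
  rw [← sum_sub_distrib]
  refine (abs_sum_le_sum_abs _ _).trans ?_
  have h1 : ∀ n ∈ Icc 1 N, |∏ a ∈ A, pert l (Function.update t i v) (n + a) -
      ∏ a ∈ A, pert l t (n + a)| ≤ if n ∈ A.image (fun a => (i : ℕ) + 1 - a) then 2 else 0 := by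
    intro n hn
    have hn1 := (mem_Icc.1 hn).1
    split_ifs with h2
    · have h3 := abs_le.1 (prod_le hl (Function.update t i v) A n)
      have h4 := abs_le.1 (prod_le hl t A n)
      rw [abs_le]
      constructor <;> linarith
    · have h3 : ∏ a ∈ A, pert l (Function.update t i v) (n + a) = ∏ a ∈ A, pert l t (n + a) := by
        refine prod_congr rfl fun a ha => ?_
        refine pert_update l t i v _ fun h4 => h2 (mem_image.2 ⟨a, ha, ?_⟩)
        omega
      rw [h3, sub_self, abs_zero]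
  refine (sum_le_sum h1).trans ?_
  rw [← sum_filter, sum_const, nsmul_eq_mul, mul_comm]
  refine mul_le_mul_of_nonneg_left ?_ (by norm_num)
  have h5 : (Icc 1 N).filter (fun n => n ∈ A.image (fun a => (i : ℕ) + 1 - a)) ⊆
      A.image (fun a => (i : ℕ) + 1 - a) := fun n hn => (mem_filter.1 hn).2
  exact_mod_cast (card_le_card h5).trans card_image_le

open Classical in
theorem corr_dev {l : ℕ → ℝ} (hl : ∀ n, |l n| ≤ 1) {X W N k : ℕ} (hX : 1 ≤ X) (hW : 1 ≤ W)
    (hk : 1 ≤ k) {A : Finset ℕ} (hA : A.card ≤ k) {ε δ : ℝ} (hδ : 0 ≤ δ)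
    (hm : |(∑ t : Fin X → Fin W, corr l t A N) / (W : ℝ) ^ X| ≤ ε * X) :
    ((univ.filter fun t : Fin X → Fin W => (ε + δ) * X ≤ |corr l t A N|).card : ℝ) ≤
      2 * (Real.exp (-(δ ^ 2 * X / (8 * (k : ℝ) ^ 2))) * (W : ℝ) ^ X) := by
  have : Nonempty (Fin W) := ⟨⟨0, hW⟩⟩
  have hX0 : (0 : ℝ) < X := by exact_mod_cast hX
  have hk0 : (0 : ℝ) < k := by exact_mod_cast hk
  have hAk : (A.card : ℝ) ≤ k := by exact_mod_cast hA
  have hlow : ∀ f : (Fin X → Fin W) → ℝ,
      (∀ w i v, |f (Function.update w i v) - f w| ≤ 2 * k) →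
      |(∑ t, f t) / (W : ℝ) ^ X| ≤ ε * X →
      ((univ.filter fun t : Fin X → Fin W => f t ≤ -((ε + δ) * X)).card : ℝ) ≤
        Real.exp (-(δ ^ 2 * X / (8 * (k : ℝ) ^ 2))) * (W : ℝ) ^ X := by
    intro f hf hm'
    have h := Pool.Agent.V1181.BDiff.lower (ι := Fin X) (α := Fin W) (fun _ => 2 * (k : ℝ))
      f (fun _ => by positivity) hf (4 * (k : ℝ) ^ 2 * X) (δ * X) (by positivity)
      (by simp only [sum_const, card_univ, Fintype.card_fin, nsmul_eq_mul]; linarith)
      (by positivity)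
    simp only [Fintype.card_fin] at h
    refine le_trans ?_ (h.trans (le_of_eq ?_))
    · refine Nat.cast_le.2 (card_le_card fun t ht => ?_)
      have h1 := (mem_filter.1 ht).2
      refine mem_filter.2 ⟨mem_univ _, ?_⟩
      have h2 := (abs_le.1 hm').1
      linarith
    · congr 3
      field_simp
      ring
  have h1 := hlow (fun t => corr l t A N) (fun w i v =>
    (corr_update hl w i v A N).trans (by linarith)) hm
  have h2 := hlow (fun t => -corr l t A N) (fun w i v => by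
    have := corr_update hl w i v A N
    rw [abs_sub_comm] at this
    have e : -corr l (Function.update w i v) A N - -corr l w A N =
      corr l w A N - corr l (Function.update w i v) A N := by ring
    rw [e]
    exact this.trans (by linarith)) (by
    rw [sum_neg_distrib, neg_div, abs_neg]
    exact hm)
  have hsub : (univ.filter fun t : Fin X → Fin W => (ε + δ) * X ≤ |corr l t A N|) ⊆
      (univ.filter fun t : Fin X → Fin W => corr l t A N ≤ -((ε + δ) * X)) ∪
      (univ.filter fun t : Fin X → Fin W => -corr l t A N ≤ -((ε + δ) * X)) := by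
    intro t ht
    have h3 := (mem_filter.1 ht).2
    rw [mem_union, mem_filter, mem_filter]
    rcases le_abs.1 h3 with h4 | h4
    · right
      exact ⟨mem_univ _, by linarith⟩
    · left
      exact ⟨mem_univ _, by linarith⟩
  have h3 := (card_le_card hsub).trans (card_union_le _ _)
  have h4 : ((univ.filter fun t : Fin X → Fin W => (ε + δ) * X ≤ |corr l t A N|).card : ℝ) ≤
      ((univ.filter fun t : Fin X → Fin W => corr l t A N ≤ -((ε + δ) * X)).card : ℝ) +
      ((univ.filter fun t : Fin X → Fin W => -corr l t A N ≤ -((ε + δ) * X)).card : ℝ) := by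
    exact_mod_cast h3
  linarith

open Classical in
/-- All the correlations of order at most `k` at the same time. -/
theorem chowla {l : ℕ → ℝ} (hl : ∀ n, |l n| ≤ 1) (hE : WinDual (fun n => ((l n : ℝ) : ℂ))) {ε : ℝ}
    (hε : 0 < ε) {k : ℕ} (hk : 1 ≤ k) :
    ∃ c : ℝ, 0 < c ∧ ∃ W₀ : ℕ, ∀ W : ℕ, W₀ ≤ W → ∃ X₀ : ℕ, ∀ X : ℕ, X₀ ≤ X →
      ((univ.filter fun t : Fin X → Fin W =>
        ¬ ∀ A : Finset ℕ, A.Nonempty → A.card ≤ k → ∀ N : ℕ, N ≤ X →
          |corr l t A N| ≤ ε * X).card : ℝ) ≤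
      Real.exp (-(c * X)) * (W : ℝ) ^ X := by
  set δ : ℝ := ε / 2 with hδ
  have hδ0 : 0 < δ := by rw [hδ]; positivity
  have hk0 : (0 : ℝ) < k := by exact_mod_cast hk
  set c : ℝ := δ ^ 2 / (32 * (k : ℝ) ^ 2) with hc
  have hc0 : 0 < c := by rw [hc]; positivity
  obtain ⟨W₀, hW₀⟩ := hE δ hδ0
  refine ⟨c, hc0, max W₀ 1, fun W hW => ?_⟩
  have hW1 : 1 ≤ W := (le_max_right _ _).trans hW
  obtain ⟨X₀, hX₀⟩ := hW₀ W ((le_max_left _ _).trans hW)
  have hlarge : ∀ᶠ X : ℕ in Filter.atTop, 4 * (X : ℝ) ^ (k + 1) ≤ Real.exp (c * X) := by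
    have h1 := (isLittleO_pow_exp_pos_mul_atTop (k + 1) hc0).bound
      (show (0 : ℝ) < 1 / 4 by norm_num)
    filter_upwards [(tendsto_natCast_atTop_atTop (R := ℝ)).eventually h1] with X hX
    rw [Real.norm_of_nonneg (by positivity), Real.norm_of_nonneg (by positivity)] at hX
    linarith
  obtain ⟨X₁, hX₁⟩ := Filter.eventually_atTop.1 hlarge
  refine ⟨max (max X₀ X₁) 1, fun X hX => ?_⟩
  have hX1 : 1 ≤ X := (le_max_right _ _).trans hX
  have hX0' : X₀ ≤ X := (le_max_left _ _).trans ((le_max_left _ _).trans hX)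
  have hX1' : X₁ ≤ X := (le_max_right _ _).trans ((le_max_left _ _).trans hX)
  have hXr : (1 : ℝ) ≤ X := by exact_mod_cast hX1
  have hsub : (univ.filter fun t : Fin X → Fin W =>
        ¬ ∀ A : Finset ℕ, A.Nonempty → A.card ≤ k → ∀ N : ℕ, N ≤ X →
          |corr l t A N| ≤ ε * X) ⊆
      (univ : Finset (Fin k → Fin X)).biUnion fun b => (range (X + 1)).biUnion fun N =>
        univ.filter fun t : Fin X → Fin W =>
          (δ + δ) * X ≤ |corr l t (univ.image fun j => (b j : ℕ)) N| := by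
    intro t ht
    have h1 := (mem_filter.1 ht).2
    push Not at h1
    obtain ⟨A, hne, hA, N, hN, hlN⟩ := h1
    have hAX : ∀ a ∈ A, a < X := by
      intro a ha
      by_contra hcon
      have h2 : corr l t A N = 0 := by
        unfold corr
        refine sum_eq_zero fun n hn => prod_eq_zero ha ?_
        have := (mem_Icc.1 hn).1
        unfold pert
        rw [dif_neg (by omega)]
      rw [h2, abs_zero] at hlN
      have : 0 < ε * X := by positivity
      linarith
    obtain ⟨a₀, ha₀⟩ := hne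
    set b : Fin k → Fin X := fun j => if h : (j : ℕ) < A.card then
      ⟨(A.equivFin.symm ⟨j, h⟩ : ℕ), hAX _ (A.equivFin.symm ⟨j, h⟩).2⟩ else ⟨a₀, hAX a₀ ha₀⟩ with hb
    have himg : (univ.image fun j => (b j : ℕ)) = A := by
      ext a
      constructor
      · intro h
        obtain ⟨j, _, hj⟩ := mem_image.1 h
        rw [← hj]
        simp only [hb]
        split_ifs with h2
        · exact (A.equivFin.symm ⟨j, h2⟩).2
        · exact ha₀
      · intro ha
        have h2 := (A.equivFin ⟨a, ha⟩).2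
        refine mem_image.2 ⟨⟨A.equivFin ⟨a, ha⟩, by omega⟩, mem_univ _, ?_⟩
        simp only [hb]
        rw [dif_pos h2]
        simp
    refine mem_biUnion.2 ⟨b, mem_univ _, mem_biUnion.2 ⟨N, mem_range.2 (by omega),
      mem_filter.2 ⟨mem_univ _, ?_⟩⟩⟩
    rw [himg]
    have : (δ + δ) * X = ε * X := by rw [hδ]; ring
    rw [this]
    exact hlN.le
  have hone : ∀ (b : Fin k → Fin X), ∀ N ∈ range (X + 1),
      ((univ.filter fun t : Fin X → Fin W =>
          (δ + δ) * X ≤ |corr l t (univ.image fun j => (b j : ℕ)) N|).card : ℝ) ≤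
      2 * (Real.exp (-(δ ^ 2 * X / (8 * (k : ℝ) ^ 2))) * (W : ℝ) ^ X) := by
    intro b N _
    have hm := mean_le (N := N) hl hW1 (hE := fun F hF => hX₀ X hX0' F hF X le_rfl)
      (A := univ.image fun j => (b j : ℕ)) (a₀ := b ⟨0, hk⟩)
      (mem_image.2 ⟨⟨0, hk⟩, mem_univ _, rfl⟩)
    refine le_trans (le_of_eq ?_) (corr_dev hl hX1 hW1 hk
      (card_image_le.trans (by simp)) hδ0.le hm)
    congr!
  have hcount : ((univ.filter fun t : Fin X → Fin W =>
        ¬ ∀ A : Finset ℕ, A.Nonempty → A.card ≤ k → ∀ N : ℕ, N ≤ X →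
          |corr l t A N| ≤ ε * X).card : ℝ) ≤
      ∑ _b : Fin k → Fin X, ∑ _N ∈ range (X + 1),
        2 * (Real.exp (-(δ ^ 2 * X / (8 * (k : ℝ) ^ 2))) * (W : ℝ) ^ X) := by
    calc _ ≤ (((univ : Finset (Fin k → Fin X)).biUnion fun b => (range (X + 1)).biUnion fun N =>
        univ.filter fun t : Fin X → Fin W =>
          (δ + δ) * X ≤ |corr l t (univ.image fun j => (b j : ℕ)) N|).card : ℝ) :=
          Nat.cast_le.2 (card_le_card hsub)
      _ ≤ ((∑ b : Fin k → Fin X, ∑ N ∈ range (X + 1),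
        (univ.filter fun t : Fin X → Fin W =>
          (δ + δ) * X ≤ |corr l t (univ.image fun j => (b j : ℕ)) N|).card : ℕ) : ℝ) :=
          Nat.cast_le.2 (card_biUnion_le.trans (sum_le_sum fun b _ => card_biUnion_le))
      _ ≤ _ := by
          push_cast
          exact sum_le_sum fun b _ => sum_le_sum fun N hN => hone b N hN
  refine hcount.trans ?_
  rw [sum_const, sum_const, card_univ, card_range, nsmul_eq_mul, nsmul_eq_mul]
  have hcard : (Fintype.card (Fin k → Fin X) : ℝ) = (X : ℝ) ^ k := by simp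
  rw [hcard]
  push_cast
  have h8 := hX₁ X hX1'
  have hWp : (0 : ℝ) < (W : ℝ) ^ X := by
    have : (0 : ℝ) < W := by exact_mod_cast hW1
    positivity
  have hδc : δ ^ 2 * X / (8 * (k : ℝ) ^ 2) = 4 * c * X := by
    rw [hc]
    field_simp
    ring
  rw [hδc]
  have hXk : (X : ℝ) ^ k * (((X : ℝ) + 1) * 2) ≤ Real.exp (c * X) := by
    calc (X : ℝ) ^ k * (((X : ℝ) + 1) * 2) ≤ (X : ℝ) ^ k * (4 * X) :=
          mul_le_mul_of_nonneg_left (by linarith) (by positivity)
      _ = 4 * (X : ℝ) ^ (k + 1) := by ring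
      _ ≤ _ := h8
  calc (X : ℝ) ^ k * (((X : ℝ) + 1) * (2 * (Real.exp (-(4 * c * X)) * (W : ℝ) ^ X)))
      = ((X : ℝ) ^ k * (((X : ℝ) + 1) * 2)) * (Real.exp (-(4 * c * X)) * (W : ℝ) ^ X) := by ring
    _ ≤ Real.exp (c * X) * (Real.exp (-(4 * c * X)) * (W : ℝ) ^ X) :=
        mul_le_mul_of_nonneg_right hXk (by positivity)
    _ = Real.exp (-(3 * c * X)) * (W : ℝ) ^ X := by
        rw [← mul_assoc, ← Real.exp_add]
        congr 2
        ring
    _ ≤ Real.exp (-(c * X)) * (W : ℝ) ^ X := by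
        refine mul_le_mul_of_nonneg_right (Real.exp_le_exp.2 ?_) hWp.le
        have : 0 ≤ c * X := by positivity
        linarith

end Pool.Agent.V11298.SR
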