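import Pool.Agent.V11298.SR.Dua

/-!
Randomly perturbed values of a multiplicative function: short intervals and exponentially large
classes of test functions.
-/

set_option autoImplicit false

open Finset

namespace Pool.Agent.V11298.SR

/-- The five values `0, 1, -1, I, -I`. -/
noncomputable def uv (a : Fin 5) : ℂ := ![0, 1, -1, Complex.I, -Complex.I] a

theorem uv_le (a : Fin 5) : ‖uv a‖ ≤ 1 := by
  fin_cases a <;> simp [uv]

theorem exists_uv (z : ℂ) : ∃ a : Fin 5, ‖z‖ ≤ 2 * (uv a * z).re := by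
  have h := Complex.norm_le_abs_re_add_abs_im z
  by_cases h1 : |z.im| ≤ |z.re|
  · by_cases h2 : 0 ≤ z.re
    · refine ⟨1, ?_⟩
      have : (uv 1 * z).re = z.re := by simp [uv]
      rw [this]
      rw [abs_of_nonneg h2] at h h1
      linarith
    · push Not at h2
      refine ⟨2, ?_⟩
      have : (uv 2 * z).re = -z.re := by simp [uv]
      rw [this]
      rw [abs_of_neg h2] at h h1
      linarith
  · push Not at h1
    by_cases h2 : 0 ≤ z.im
    · refine ⟨4, ?_⟩
      have : (uv 4 * z).re = z.im := by simp [uv]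
      rw [this]
      rw [abs_of_nonneg h2] at h h1
      linarith
    · push Not at h2
      refine ⟨3, ?_⟩
      have : (uv 3 * z).re = -z.im := by simp [uv]
      rw [this]
      rw [abs_of_neg h2] at h h1
      linarith

/-- The sum over the window of length `H` that starts at `x`, with the test function `g`. -/
noncomputable def wsum (h : ℕ → ℂ) {X W : ℕ} (t : Fin X → Fin W) (H x : ℕ) (g : ℕ → ℂ) : ℂ :=
  ∑ i : Fin X, if x ≤ (i : ℕ) ∧ (i : ℕ) < x + H then h (i + 1 + (t i : ℕ)) * g (i - x) else 0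

/-- The weight that belongs to a residue and a choice for the windows. -/
noncomputable def wt {κ : Type} (g : κ → ℕ → ℂ) (H M : ℕ) (y : Fin H × (Fin M → κ × Fin 5))
    (n : ℕ) : ℂ :=
  if hn : (y.1 : ℕ) + 1 ≤ n ∧ (n - 1 - (y.1 : ℕ)) / H < M then
    uv (y.2 ⟨(n - 1 - (y.1 : ℕ)) / H, hn.2⟩).2 *
      g (y.2 ⟨(n - 1 - (y.1 : ℕ)) / H, hn.2⟩).1 ((n - 1 - (y.1 : ℕ)) % H) else 0

theorem wt_le {κ : Type} {g : κ → ℕ → ℂ} (hg : ∀ a n, ‖g a n‖ ≤ 1) {H M : ℕ}
    (y : Fin H × (Fin M → κ × Fin 5)) (n : ℕ) : ‖wt g H M y n‖ ≤ 1 := by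
  unfold wt
  split_ifs with hn
  · rw [norm_mul]
    exact mul_le_one₀ (uv_le _) (norm_nonneg _) (hg _ _)
  · simp

theorem sum_windows {κ : Type} (g : κ → ℕ → ℂ) (h : ℕ → ℂ) {X W H M : ℕ} (hH : 1 ≤ H)
    (hM : X < M * H) (t : Fin X → Fin W) (r : Fin H) (b : Fin M → κ × Fin 5) :
    ∑ j : Fin M, uv (b j).2 * wsum h t H (r + j * H) (g (b j).1) =
      psum (wt g H M (r, b)) h t X := by
  simp only [wsum, psum, mul_sum]
  rw [sum_comm]
  refine sum_congr rfl fun i _ => ?_
  rw [if_pos i.2]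
  have hiX := i.2
  by_cases hr : (r : ℕ) ≤ (i : ℕ)
  · have hlt : ((i : ℕ) + 1 - 1 - (r : ℕ)) / H < M := by
      refine Nat.div_lt_of_lt_mul ?_
      rw [mul_comm]
      omega
    have hdm := Nat.div_add_mod ((i : ℕ) + 1 - 1 - (r : ℕ)) H
    have hml := Nat.mod_lt ((i : ℕ) + 1 - 1 - (r : ℕ)) hH
    rw [sum_eq_single ⟨((i : ℕ) + 1 - 1 - (r : ℕ)) / H, hlt⟩]
    · have hcond : (r : ℕ) + ((i : ℕ) + 1 - 1 - (r : ℕ)) / H * H ≤ i ∧
          (i : ℕ) < (r : ℕ) + ((i : ℕ) + 1 - 1 - (r : ℕ)) / H * H + H := by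
        rw [mul_comm] at hdm
        constructor <;> omega
      simp only
      rw [if_pos hcond]
      unfold wt
      rw [dif_pos ⟨by simp only; omega, hlt⟩]
      simp only
      have hmod : (i : ℕ) - ((r : ℕ) + ((i : ℕ) + 1 - 1 - (r : ℕ)) / H * H) =
          ((i : ℕ) + 1 - 1 - (r : ℕ)) % H := by
        rw [mul_comm] at hdm
        omega
      rw [hmod]
      ring
    · intro j _ hj
      rw [if_neg, mul_zero]
      rintro ⟨h1, h2⟩
      apply hj
      apply Fin.ext
      simp only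
      symm
      refine (Nat.div_eq_iff (by omega)).2 ?_
      constructor
      · omega
      · omega
    · intro hj
      exact absurd (mem_univ _) hj
  · rw [sum_eq_zero]
    · unfold wt
      rw [dif_neg (by simp only; omega), zero_mul]
    · intro j _
      rw [if_neg (by omega), mul_zero]

theorem sum_blocks (f : ℕ → ℝ) (H M : ℕ) :
    ∑ x ∈ range (M * H), f x = ∑ r ∈ range H, ∑ j ∈ range M, f (r + j * H) := by
  rw [sum_comm]
  induction M with
  | zero => simp
  | succ M ih =>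
    rw [Nat.succ_mul, sum_range_add, ih, sum_range_succ]
    congr 1
    refine sum_congr rfl fun r _ => ?_
    rw [add_comm]

open Classical in
/-- Exponentially large classes of test functions on short intervals. -/
theorem classes {h : ℕ → ℂ} (hh : ∀ n, ‖h n‖ ≤ 1) (hE : WinDual h) {ε : ℝ} (hε : 0 < ε) :
    ∃ c : ℝ, 0 < c ∧ ∃ W₀ : ℕ, ∀ W : ℕ, W₀ ≤ W → ∀ H : ℕ, 1 ≤ H → ∃ X₀ : ℕ, ∀ X : ℕ, X₀ ≤ X →
      ∀ (κ : Type) [Fintype κ] (g : κ → ℕ → ℂ), 5 * (Fintype.card κ : ℝ) ≤ Real.exp (c * H) →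
      (∀ a n, ‖g a n‖ ≤ 1) →
      ((univ.filter fun t : Fin X → Fin W =>
        ¬ ∀ a : ℕ → κ, ∑ x ∈ range X, ‖wsum h t H x (g (a x))‖ ≤ ε * H * X).card : ℝ) ≤
      Real.exp (-(c * X)) * (W : ℝ) ^ X := by
  obtain ⟨c, hc, W₀, hW₀⟩ := weights hh hE (ε := ε / 2) (by positivity)
  refine ⟨c / 2, by positivity, W₀, fun W hW H hH => ?_⟩
  obtain ⟨X₀, hX₀⟩ := hW₀ W hW
  have hlarge : ∀ᶠ X : ℕ in Filter.atTop, H * Real.exp (c / 2 * H) ≤ Real.exp (c / 2 * X) := by
    have h1 : Filter.Tendsto (fun X : ℕ => Real.exp (c / 2 * X)) Filter.atTop Filter.atTop :=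
      Real.tendsto_exp_atTop.comp ((Filter.tendsto_id.const_mul_atTop (by positivity)).comp
        tendsto_natCast_atTop_atTop)
    exact h1.eventually_ge_atTop _
  obtain ⟨X₁, hX₁⟩ := Filter.eventually_atTop.1 hlarge
  refine ⟨max X₀ X₁, fun X hX κ _ g hκ hg => ?_⟩
  have hX0' : X₀ ≤ X := (le_max_left _ _).trans hX
  have hX1' : X₁ ≤ X := (le_max_right _ _).trans hX
  set M := X / H + 1 with hM
  have hMH : X < M * H := by
    have := Nat.lt_mul_div_succ X (show 0 < H from hH)
    rw [hM, mul_comm]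
    exact this
  have hMH2 : M * H ≤ X + H := by
    have := Nat.div_mul_le_self X H
    rw [hM, add_mul, one_mul]
    omega
  have hcard : (Fintype.card (Fin H × (Fin M → κ × Fin 5)) : ℝ) ≤ Real.exp (c * X) := by
    have h3 : (Fintype.card (Fin H × (Fin M → κ × Fin 5)) : ℝ) =
        H * (5 * (Fintype.card κ : ℝ)) ^ M := by
      simp [Fintype.card_prod, mul_comm]
    rw [h3]
    calc (H : ℝ) * (5 * (Fintype.card κ : ℝ)) ^ M ≤ H * (Real.exp (c / 2 * H)) ^ M := by
          gcongr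
      _ = H * Real.exp (c / 2 * (M * H)) := by
          rw [← Real.exp_nat_mul]
          ring_nf
      _ ≤ H * Real.exp (c / 2 * (X + H)) := by
          have : (M : ℝ) * H ≤ X + H := by exact_mod_cast hMH2
          gcongr
      _ = (H * Real.exp (c / 2 * H)) * Real.exp (c / 2 * X) := by
          rw [mul_assoc, ← Real.exp_add]
          ring_nf
      _ ≤ Real.exp (c / 2 * X) * Real.exp (c / 2 * X) :=
          mul_le_mul_of_nonneg_right (hX₁ X hX1') (Real.exp_pos _).le
      _ = Real.exp (c * X) := by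
          rw [← Real.exp_add]
          congr 1
          ring
  have hfam := hX₀ X hX0' (Fin H × (Fin M → κ × Fin 5)) (wt g H M) hcard (wt_le hg)
  refine le_trans ?_ (hfam.trans ?_)
  · refine Nat.cast_le.2 (card_le_card fun t ht => ?_)
    have h1 := (mem_filter.1 ht).2
    refine mem_filter.2 ⟨mem_univ _, fun hall => h1 ?_⟩
    intro a
    have hr : ∀ r ∈ range H, ∑ j ∈ range M, ‖wsum h t H (r + j * H) (g (a (r + j * H)))‖ ≤
        ε * X := by
      intro r hr
      have hrH := mem_range.1 hr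
      choose u hu using fun j : Fin M =>
        exists_uv (wsum h t H (r + j * H) (g (a (r + j * H))))
      set b : Fin M → κ × Fin 5 := fun j => (a (r + j * H), u j) with hb
      have h2 := sum_windows g h hH hMH t ⟨r, hrH⟩ b
      have h3 := hall (⟨r, hrH⟩, b)
      rw [← h2] at h3
      calc ∑ j ∈ range M, ‖wsum h t H (r + j * H) (g (a (r + j * H)))‖
          = ∑ j : Fin M, ‖wsum h t H (r + j * H) (g (a (r + j * H)))‖ :=
            (Fin.sum_univ_eq_sum_range (fun j =>
              ‖wsum h t H (r + j * H) (g (a (r + j * H)))‖) M).symm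
        _ ≤ ∑ j : Fin M, 2 * (uv (u j) * wsum h t H (r + j * H) (g (a (r + j * H)))).re :=
            sum_le_sum fun j _ => hu j
        _ = 2 * (∑ j : Fin M, uv (b j).2 * wsum h t H (r + j * H) (g (b j).1)).re := by
            rw [← mul_sum, Complex.re_sum]
        _ ≤ 2 * ‖∑ j : Fin M, uv (b j).2 * wsum h t H (r + j * H) (g (b j).1)‖ :=
            mul_le_mul_of_nonneg_left (Complex.re_le_norm _) (by norm_num)
        _ ≤ 2 * (ε / 2 * X) := mul_le_mul_of_nonneg_left h3 (by norm_num)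
        _ = ε * X := by ring
    calc ∑ x ∈ range X, ‖wsum h t H x (g (a x))‖
        ≤ ∑ x ∈ range (M * H), ‖wsum h t H x (g (a x))‖ :=
          sum_le_sum_of_subset_of_nonneg (range_subset_range.2 hMH.le)
            fun _ _ _ => norm_nonneg _
      _ = ∑ r ∈ range H, ∑ j ∈ range M, ‖wsum h t H (r + j * H) (g (a (r + j * H)))‖ :=
          sum_blocks _ H M
      _ ≤ ∑ _r ∈ range H, ε * X := sum_le_sum hr
      _ = ε * H * X := by
          rw [sum_const, card_range, nsmul_eq_mul]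
          ring
  · refine mul_le_mul_of_nonneg_right (Real.exp_le_exp.2 ?_) (by positivity)
    have : 0 ≤ c * (X : ℝ) := by positivity
    linarith

end Pool.Agent.V11298.SR
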