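import Pool.Agent.TH823.MRS.Circ2
import Pool.Agent.TH823.MRS.Fun
import Pool.Agent.V11298.SR.Fam

/-!
Randomly perturbed times: the Möbius and the Liouville function.
-/

set_option autoImplicit false

open Finset

namespace Pool.Agent.V11298.SR

open Pool.Agent.TH823.MRS (ExpoSmall moving expo_mob expo_lam)
open Pool.Agent.H807R2.Dav (ee ee_zero)

theorem win_of_expo {h : ℕ → ℂ} (hb : ∀ n, ‖h n‖ ≤ 1) (hE : ExpoSmall h) : WinSmall h := by
  intro ε hε
  obtain ⟨H₀, X₀, hX⟩ := hE (ε / 2) (by positivity) 2 (by norm_num)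
  refine ⟨max ⌈H₀⌉₊ 1, fun W hW => ?_⟩
  have hW1 : 1 ≤ W := (le_max_right _ _).trans hW
  have hWH : H₀ ≤ W := (Nat.le_ceil _).trans (by exact_mod_cast (le_max_left _ _).trans hW)
  obtain ⟨X₁, hX₁⟩ := exists_nat_ge (2 * (W : ℝ) / ε)
  refine ⟨max (max X₀ X₁) W, fun X hXX f hf N hN => ?_⟩
  have hX0' : X₀ ≤ X := (le_max_left _ _).trans ((le_max_left _ _).trans hXX)
  have hX1' : X₁ ≤ X := (le_max_right _ _).trans ((le_max_left _ _).trans hXX)
  have hWX : W ≤ X := (le_max_right _ _).trans hXX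
  have hW0 : (0 : ℝ) < W := by exact_mod_cast hW1
  have hWε : (W : ℝ) ≤ ε / 2 * X := by
    have h1 : 2 * (W : ℝ) / ε ≤ X := hX₁.trans (by exact_mod_cast hX1')
    rw [div_le_iff₀ hε] at h1
    linarith
  set θ : ℕ → ℂ := fun z => if z ≤ N then f z else 0 with hθ
  have hθb : ∀ z, ‖θ z‖ ≤ 1 := by
    intro z
    simp only [hθ]
    split_ifs
    · exact hf z
    · simp
  set T : ℕ → ℂ := fun n => ∑ z ∈ Ico n (n + W), θ z with hT
  have hTN : ∀ n, N < n → T n = 0 := by
    intro n hn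
    refine sum_eq_zero fun z hz => ?_
    have := (mem_Ico.1 hz).1
    simp only [hθ]
    rw [if_neg (by omega)]
  have key := hX X hX0' W hWH (by exact_mod_cast hWX) T (by
      intro n
      refine (norm_sum_le _ _).trans ((sum_le_sum fun z _ => hθb z).trans ?_)
      rw [sum_const, Nat.card_Ico, nsmul_eq_mul, mul_one, Nat.add_sub_cancel_left]) (by
      intro n m
      exact moving θ hθb W n m) (by
      intro n hn
      exact hTN n (by omega)) 0
  have h1 : ∑ n ∈ Icc 1 (3 * X), h n * ee ((n : ℝ) * 0) * T n = ∑ n ∈ Icc 1 N, h n * T n := by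
    have h2 : Icc 1 N ⊆ Icc 1 (3 * X) := Icc_subset_Icc_right (by omega)
    rw [← sum_subset h2]
    · refine sum_congr rfl fun n _ => ?_
      rw [mul_zero, ee_zero, mul_one]
    · intro n hn hn'
      rw [mem_Icc] at hn hn'
      rw [hTN n (by omega), mul_zero]
  rw [h1] at key
  -- the boundary
  have h3 : ∀ n ∈ Icc 1 N, ‖h n * ∑ j ∈ range W, f (n + j) - h n * T n‖ ≤
      if N < n + W then (W : ℝ) else 0 := by
    intro n hn
    have h4 : ∑ j ∈ range W, f (n + j) = ∑ z ∈ Ico n (n + W), f z := by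
      rw [sum_Ico_eq_sum_range]
      simp
    rw [← mul_sub, h4, hT, ← sum_sub_distrib, norm_mul]
    split_ifs with h5
    · calc ‖h n‖ * ‖∑ z ∈ Ico n (n + W), (f z - θ z)‖ ≤ 1 * ∑ z ∈ Ico n (n + W), (1 : ℝ) := by
            refine mul_le_mul (hb n) ((norm_sum_le _ _).trans (sum_le_sum fun z _ => ?_))
              (norm_nonneg _) (by norm_num)
            simp only [hθ]
            split_ifs
            · simp
            · rw [sub_zero]
              exact hf z
        _ = W := by simp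
    · have h6 : ∑ z ∈ Ico n (n + W), (f z - θ z) = 0 := by
        refine sum_eq_zero fun z hz => ?_
        have := (mem_Ico.1 hz).2
        simp only [hθ]
        rw [if_pos (by omega), sub_self]
      rw [h6, norm_zero, mul_zero]
  have h4 : ‖∑ n ∈ Icc 1 N, h n * ∑ j ∈ range W, f (n + j) - ∑ n ∈ Icc 1 N, h n * T n‖ ≤
      W * W := by
    rw [← sum_sub_distrib]
    refine (norm_sum_le _ _).trans ((sum_le_sum h3).trans ?_)
    rw [← sum_filter, sum_const, nsmul_eq_mul]
    refine mul_le_mul_of_nonneg_right ?_ hW0.le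
    have h5 : (Icc 1 N).filter (fun n => N < n + W) ⊆ Ioc (N - W) N := by
      intro n hn
      rw [mem_filter, mem_Icc] at hn
      rw [mem_Ioc]
      omega
    have h6 := card_le_card h5
    rw [Nat.card_Ioc] at h6
    exact_mod_cast h6.trans (by omega)
  have h5 : ‖∑ n ∈ Icc 1 N, h n * ∑ j ∈ range W, f (n + j)‖ ≤ ε / 2 * W * X + W * W := by
    calc ‖∑ n ∈ Icc 1 N, h n * ∑ j ∈ range W, f (n + j)‖
        = ‖(∑ n ∈ Icc 1 N, h n * ∑ j ∈ range W, f (n + j) - ∑ n ∈ Icc 1 N, h n * T n) +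
          ∑ n ∈ Icc 1 N, h n * T n‖ := by rw [sub_add_cancel]
      _ ≤ W * W + ε / 2 * W * X := (norm_add_le _ _).trans (add_le_add h4 key)
      _ = _ := add_comm _ _
  refine h5.trans ?_
  have h6 : (W : ℝ) * W ≤ W * (ε / 2 * X) := mul_le_mul_of_nonneg_left hWε hW0.le
  nlinarith

theorem mob_le (n : ℕ) : ‖((ArithmeticFunction.moebius n : ℤ) : ℂ)‖ ≤ 1 := by
  rw [Complex.norm_intCast]
  exact_mod_cast ArithmeticFunction.abs_moebius_le_one

theorem win_mob : WinSmall (fun n => ((ArithmeticFunction.moebius n : ℤ) : ℂ)) :=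
  win_of_expo mob_le expo_mob

end Pool.Agent.V11298.SR
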