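import Pool.Agent.TH823.MRS.Circ2
import Pool.Agent.TH823.MRS.Fun
import Pool.Agent.V11298.SR.Win

/-!
Randomly perturbed values of a multiplicative function: exponentially many arbitrary weights.
-/

set_option autoImplicit false

open Finset

namespace Pool.Agent.V11298.SR

open Pool.Agent.TH823.MRS (ExpoSmall moving expo_mob expo_lam)
open Pool.Agent.H807R2.Dav (ee ee_zero)

/-- The averages of `h` over windows of length `W` are almost orthogonal to arbitrary bounded
sequences. -/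
def WinDual (h : ℕ → ℂ) : Prop := ∀ ε : ℝ, 0 < ε → ∃ W₀ : ℕ, ∀ W : ℕ, W₀ ≤ W →
  ∃ X₀ : ℕ, ∀ X : ℕ, X₀ ≤ X → ∀ F : ℕ → ℂ, (∀ n, ‖F n‖ ≤ 1) → ∀ N : ℕ, N ≤ X →
    ‖∑ n ∈ Icc 1 N, F n * ∑ j ∈ range W, h (n + j)‖ ≤ ε * W * X

theorem dual_of_expo {h : ℕ → ℂ} (hE : ExpoSmall h) : WinDual h := by
  intro ε hε
  obtain ⟨H₀, X₀, hX⟩ := hE ε hε 2 (by norm_num)
  refine ⟨max ⌈H₀⌉₊ 1, fun W hW => ?_⟩
  have hW1 : 1 ≤ W := (le_max_right _ _).trans hW
  have hWH : H₀ ≤ W := (Nat.le_ceil _).trans (by exact_mod_cast (le_max_left _ _).trans hW)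
  refine ⟨max X₀ W, fun X hXX F hF N hN => ?_⟩
  have hX0' : X₀ ≤ X := (le_max_left _ _).trans hXX
  have hWX : W ≤ X := (le_max_right _ _).trans hXX
  set θ : ℕ → ℂ := fun z => if W ≤ z ∧ z + 1 - W ≤ N then F (z + 1 - W) else 0 with hθ
  have hθb : ∀ z, ‖θ z‖ ≤ 1 := by
    intro z
    simp only [hθ]
    split_ifs
    · exact hF _
    · simp
  set T : ℕ → ℂ := fun n => ∑ z ∈ Ico n (n + W), θ z with hT
  have hTN : ∀ n, 3 * X < n → T n = 0 := by
    intro n hn
    refine sum_eq_zero fun z hz => ?_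
    have := (mem_Ico.1 hz).1
    simp only [hθ]
    rw [if_neg (by omega)]
  have key := hX X hX0' W hWH (by exact_mod_cast hWX) T (by
      intro n
      refine (norm_sum_le _ _).trans ((sum_le_sum fun z _ => hθb z).trans ?_)
      rw [sum_const, Nat.card_Ico, nsmul_eq_mul, mul_one, Nat.add_sub_cancel_left]) (by
      intro n m
      exact moving θ hθb W n m) hTN 0
  have h1 : ∑ n ∈ Icc 1 (3 * X), h n * ee ((n : ℝ) * 0) * T n =
      ∑ n ∈ Icc 1 N, F n * ∑ j ∈ range W, h (n + j) := by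
    have e1 : ∑ n ∈ Icc 1 (3 * X), h n * ee ((n : ℝ) * 0) * T n =
        ∑ m ∈ Icc 1 (3 * X), ∑ j ∈ range W, h m * θ (m + j) := by
      refine sum_congr rfl fun m _ => ?_
      rw [mul_zero, ee_zero, mul_one]
      simp only [hT]
      rw [sum_Ico_eq_sum_range, Nat.add_sub_cancel_left, mul_sum]
    rw [e1]
    have e2 : ∑ m ∈ Icc 1 (3 * X), ∑ j ∈ range W, h m * θ (m + j) =
        ∑ m ∈ Icc 1 (3 * X), ∑ n ∈ Icc 1 N, if n ≤ m ∧ m < n + W then F n * h m else 0 := by
      refine sum_congr rfl fun m hm => ?_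
      rw [← sum_filter]
      have hm1 := (mem_Icc.1 hm).1
      have e3 : ∑ j ∈ range W, h m * θ (m + j) =
          ∑ j ∈ (range W).filter (fun j => W ≤ m + j ∧ m + j + 1 - W ≤ N), F (m + j + 1 - W) * h m := by
        rw [sum_filter]
        refine sum_congr rfl fun j _ => ?_
        simp only [hθ]
        split_ifs
        · ring
        · ring
      rw [e3]
      refine sum_bij (fun j _ => m + j + 1 - W) ?_ ?_ ?_ ?_
      · intro j hj
        rw [mem_filter, mem_range] at hj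
        rw [mem_filter, mem_Icc]
        omega
      · intro j hj j' hj' hjj
        rw [mem_filter, mem_range] at hj hj'
        omega
      · intro n hn
        rw [mem_filter, mem_Icc] at hn
        refine ⟨n + W - 1 - m, ?_, ?_⟩
        · rw [mem_filter, mem_range]
          omega
        · omega
      · intro j _
        rfl
    rw [e2, sum_comm]
    refine sum_congr rfl fun n hn => ?_
    have hn1 := mem_Icc.1 hn
    rw [← sum_filter, mul_sum]
    refine (sum_bij (fun j _ => n + j) ?_ ?_ ?_ ?_).symm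
    · intro j hj
      rw [mem_range] at hj
      rw [mem_filter, mem_Icc]
      omega
    · intro j _ j' _ hjj
      omega
    · intro m hm
      rw [mem_filter, mem_Icc] at hm
      refine ⟨m - n, ?_, ?_⟩
      · rw [mem_range]
        omega
      · omega
    · intro j _
      rfl
  rw [h1] at key
  exact key

open Classical in
/-- Exponentially many weights. -/
theorem weights {h : ℕ → ℂ} (hh : ∀ n, ‖h n‖ ≤ 1) (hE : WinDual h) {ε : ℝ} (hε : 0 < ε) :
    ∃ c : ℝ, 0 < c ∧ ∃ W₀ : ℕ, ∀ W : ℕ, W₀ ≤ W → ∃ X₀ : ℕ, ∀ X : ℕ, X₀ ≤ X →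
      ∀ (ι : Type) [Fintype ι] (F : ι → ℕ → ℂ), (Fintype.card ι : ℝ) ≤ Real.exp (c * X) →
      (∀ l n, ‖F l n‖ ≤ 1) →
      ((univ.filter fun t : Fin X → Fin W =>
        ¬ ∀ l : ι, ‖psum (F l) h t X‖ ≤ ε * X).card : ℝ) ≤
      Real.exp (-(c * X)) * (W : ℝ) ^ X := by
  set δ : ℝ := ε / 4 with hδ
  have hδ0 : 0 < δ := by rw [hδ]; positivity
  set c : ℝ := δ ^ 2 / 32 with hc
  have hc0 : 0 < c := by rw [hc]; positivity
  obtain ⟨W₀, hW₀⟩ := hE δ hδ0
  refine ⟨c, hc0, max W₀ 1, fun W hW => ?_⟩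
  have hW1 : 1 ≤ W := (le_max_right _ _).trans hW
  obtain ⟨X₀, hX₀⟩ := hW₀ W ((le_max_left _ _).trans hW)
  have hlarge : ∀ᶠ X : ℕ in Filter.atTop, 8 * (X : ℝ) ≤ Real.exp (c * X) := by
    have h1 := (isLittleO_pow_exp_pos_mul_atTop 1 hc0).bound (show (0 : ℝ) < 1 / 8 by norm_num)
    filter_upwards [(tendsto_natCast_atTop_atTop (R := ℝ)).eventually h1] with X hX
    rw [pow_one, Real.norm_of_nonneg (by positivity), Real.norm_of_nonneg (by positivity)] at hX
    linarith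
  obtain ⟨X₁, hX₁⟩ := Filter.eventually_atTop.1 hlarge
  refine ⟨max (max X₀ X₁) 1, fun X hX ι _ F hL hF => ?_⟩
  have hX1 : 1 ≤ X := (le_max_right _ _).trans hX
  have hX0' : X₀ ≤ X := (le_max_left _ _).trans ((le_max_left _ _).trans hX)
  have hX1' : X₁ ≤ X := (le_max_right _ _).trans ((le_max_left _ _).trans hX)
  have hXr : (1 : ℝ) ≤ X := by exact_mod_cast hX1
  have hsub : (univ.filter fun t : Fin X → Fin W =>
        ¬ ∀ l : ι, ‖psum (F l) h t X‖ ≤ ε * X) ⊆
      (univ : Finset ι).biUnion fun l =>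
        univ.filter fun t : Fin X → Fin W => 4 * δ * X ≤ ‖psum (F l) h t X‖ := by
    intro t ht
    have h1 := (mem_filter.1 ht).2
    push Not at h1
    obtain ⟨l, hlN⟩ := h1
    refine mem_biUnion.2 ⟨l, mem_univ _, mem_filter.2 ⟨mem_univ _, ?_⟩⟩
    have : 4 * δ * X = ε * X := by rw [hδ]; ring
    rw [this]
    exact hlN.le
  have hone : ∀ (l : ι),
      ((univ.filter fun t : Fin X → Fin W => 4 * δ * X ≤ ‖psum (F l) h t X‖).card : ℝ) ≤
      4 * (Real.exp (-(δ ^ 2 * X / 8)) * (W : ℝ) ^ X) := by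
    intro l
    refine le_trans (le_of_eq ?_) (one_sum (hF l) hh hX1 hW1 le_rfl hδ0
      (hX₀ X hX0' (F l) (hF l) X le_rfl))
    congr!
  have hcount : ((univ.filter fun t : Fin X → Fin W =>
        ¬ ∀ l : ι, ‖psum (F l) h t X‖ ≤ ε * X).card : ℝ) ≤
      ∑ l : ι, 4 * (Real.exp (-(δ ^ 2 * X / 8)) * (W : ℝ) ^ X) := by
    calc _ ≤ (((univ : Finset ι).biUnion fun l =>
        univ.filter fun t : Fin X → Fin W => 4 * δ * X ≤ ‖psum (F l) h t X‖).card : ℝ) :=
          Nat.cast_le.2 (card_le_card hsub)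
      _ ≤ ((∑ l : ι,
        (univ.filter fun t : Fin X → Fin W => 4 * δ * X ≤ ‖psum (F l) h t X‖).card : ℕ) : ℝ) :=
          Nat.cast_le.2 card_biUnion_le
      _ ≤ _ := by
          push_cast
          exact sum_le_sum fun l _ => hone l
  refine hcount.trans ?_
  rw [sum_const, card_univ, nsmul_eq_mul]
  have h8 := hX₁ X hX1'
  have hX2 : (4 : ℝ) ≤ Real.exp (c * X) := by linarith
  have hWp : (0 : ℝ) < (W : ℝ) ^ X := by
    have : (0 : ℝ) < W := by exact_mod_cast hW1
    positivity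
  have hδc : δ ^ 2 * X / 8 = 4 * c * X := by rw [hc]; ring
  rw [hδc]
  calc (Fintype.card ι : ℝ) * (4 * (Real.exp (-(4 * c * X)) * (W : ℝ) ^ X))
      ≤ Real.exp (c * X) * (Real.exp (c * X) * (Real.exp (-(4 * c * X)) * (W : ℝ) ^ X)) := by
        refine mul_le_mul hL ?_ (by positivity) (by positivity)
        exact mul_le_mul_of_nonneg_right hX2 (by positivity)
    _ = (Real.exp (c * X) * Real.exp (c * X) * Real.exp (-(4 * c * X))) * (W : ℝ) ^ X := by ring
    _ = Real.exp (-(2 * c * X)) * (W : ℝ) ^ X := by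
        rw [← Real.exp_add, ← Real.exp_add]
        congr 2
        ring
    _ ≤ Real.exp (-(c * X)) * (W : ℝ) ^ X := by
        refine mul_le_mul_of_nonneg_right (Real.exp_le_exp.2 ?_) hWp.le
        have : 0 ≤ c * X := by positivity
        linarith

end Pool.Agent.V11298.SR
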