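import Pool.Agent.V11298.SR.Lgm

/-!
Correlations of a randomly perturbed sequence: concentration of the logarithmic averages.
-/

set_option autoImplicit false

open Finset

namespace Pool.Agent.V11298.SR

theorem lcor_update {l : ℕ → ℝ} (hl : ∀ n, |l n| ≤ 1) {X W h : ℕ} (t : Fin X → Fin W) (i : Fin X)
    (v : Fin W) {A : Finset ℕ} (hA : A ⊆ range (h + 1)) :
    |lcor l (Function.update t i v) A - lcor l t A| ≤ 2 * ((h : ℝ) + 1) ^ 2 / ((i : ℝ) + 1) := by
  classical
  unfold lcor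
  rw [← sum_sub_distrib]
  refine (abs_sum_le_sum_abs _ _).trans ?_
  have h1 : ∀ n ∈ Icc 1 X, |1 / (n : ℝ) * ∏ a ∈ A, pert l (Function.update t i v) (n + a) -
      1 / (n : ℝ) * ∏ a ∈ A, pert l t (n + a)| ≤
      if n ∈ A.image (fun a => (i : ℕ) + 1 - a) then 2 * ((h : ℝ) + 1) / ((i : ℝ) + 1) else 0 := by
    intro n hn
    have hn1 := (mem_Icc.1 hn).1
    have hn0 : (0 : ℝ) < n := by exact_mod_cast hn1
    rw [← mul_sub, abs_mul, abs_of_pos (show (0 : ℝ) < 1 / n by positivity)]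
    split_ifs with h2
    · have h3 := abs_le.1 (prod_le hl (Function.update t i v) A n)
      have h4 := abs_le.1 (prod_le hl t A n)
      have h5 : |∏ a ∈ A, pert l (Function.update t i v) (n + a) - ∏ a ∈ A, pert l t (n + a)| ≤ 2 := by
        rw [abs_le]
        constructor <;> linarith
      obtain ⟨a, ha, han⟩ := mem_image.1 h2
      have hah := mem_range.1 (hA ha)
      have h6 : ((i : ℕ) : ℝ) + 1 = n + a := by
        exact_mod_cast (by omega : (i : ℕ) + 1 = n + a)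
      have h7 : 1 / (n : ℝ) ≤ ((h : ℝ) + 1) / ((i : ℝ) + 1) := by
        rw [div_le_div_iff₀ hn0 (by positivity), h6]
        have h8 : (a : ℝ) ≤ h := by exact_mod_cast (by omega : a ≤ h)
        have h9 : (1 : ℝ) ≤ n := by exact_mod_cast hn1
        have h10 : (0 : ℝ) ≤ h := by positivity
        nlinarith
      calc 1 / (n : ℝ) * |∏ a ∈ A, pert l (Function.update t i v) (n + a) -
            ∏ a ∈ A, pert l t (n + a)| ≤ ((h : ℝ) + 1) / ((i : ℝ) + 1) * 2 :=
            mul_le_mul h7 h5 (abs_nonneg _) (by positivity)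
        _ = _ := by ring
    · have h3 : ∏ a ∈ A, pert l (Function.update t i v) (n + a) = ∏ a ∈ A, pert l t (n + a) := by
        refine prod_congr rfl fun a ha => ?_
        refine pert_update l t i v _ fun h4 => h2 (mem_image.2 ⟨a, ha, ?_⟩)
        omega
      rw [h3, sub_self, abs_zero, mul_zero]
  refine (sum_le_sum h1).trans ?_
  rw [← sum_filter, sum_const, nsmul_eq_mul]
  have h5 : (Icc 1 X).filter (fun n => n ∈ A.image (fun a => (i : ℕ) + 1 - a)) ⊆
      A.image (fun a => (i : ℕ) + 1 - a) := fun n hn => (mem_filter.1 hn).2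
  have h6 : (((Icc 1 X).filter (fun n => n ∈ A.image (fun a => (i : ℕ) + 1 - a))).card : ℝ) ≤
      (h : ℝ) + 1 := by
    have h7 := card_le_card hA
    rw [card_range] at h7
    exact_mod_cast (card_le_card h5).trans (card_image_le.trans h7)
  calc _ ≤ ((h : ℝ) + 1) * (2 * ((h : ℝ) + 1) / ((i : ℝ) + 1)) :=
        mul_le_mul_of_nonneg_right h6 (by positivity)
    _ = _ := by ring

theorem sum_sq (M : ℕ) : ∑ i ∈ range (M + 1), 1 / ((i : ℝ) + 1) ^ 2 ≤ 2 - 1 / ((M : ℝ) + 1) := by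
  induction M with
  | zero => norm_num
  | succ M ih =>
    rw [sum_range_succ]
    have h1 : 1 / (((M + 1 : ℕ) : ℝ) + 1) ^ 2 ≤ 1 / ((M : ℝ) + 1) - 1 / (((M + 1 : ℕ) : ℝ) + 1) := by
      push_cast
      rw [div_sub_div _ _ (by positivity) (by positivity), div_le_div_iff₀ (by positivity)
        (by positivity)]
      have h0 : (0 : ℝ) ≤ M := by positivity
      nlinarith
    linarith

theorem sum_fin_sq (X : ℕ) : ∑ i : Fin X, 1 / ((i : ℝ) + 1) ^ 2 ≤ 2 := by
  rw [Fin.sum_univ_eq_sum_range (fun i => 1 / ((i : ℝ) + 1) ^ 2) X]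
  rcases Nat.eq_zero_or_pos X with hX | hX
  · subst hX
    simp
  · obtain ⟨M, rfl⟩ : ∃ M, X = M + 1 := ⟨X - 1, by omega⟩
    have := sum_sq M
    have h1 : 0 ≤ 1 / ((M : ℝ) + 1) := by positivity
    linarith

open Classical in
theorem lcor_dev {l : ℕ → ℝ} (hl : ∀ n, |l n| ≤ 1) {X W h : ℕ} (hW : 1 ≤ W)
    {A : Finset ℕ} (hA : A ⊆ range (h + 1)) {m δ : ℝ} (hδ : 0 ≤ δ)
    (hm : |(∑ t : Fin X → Fin W, lcor l t A) / (W : ℝ) ^ X| ≤ m) :
    ((univ.filter fun t : Fin X → Fin W => m + δ ≤ |lcor l t A|).card : ℝ) ≤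
      2 * (Real.exp (-(δ ^ 2 / (16 * ((h : ℝ) + 1) ^ 4))) * (W : ℝ) ^ X) := by
  have : Nonempty (Fin W) := ⟨⟨0, hW⟩⟩
  have hlow : ∀ f : (Fin X → Fin W) → ℝ,
      (∀ w i v, |f (Function.update w i v) - f w| ≤ 2 * ((h : ℝ) + 1) ^ 2 / ((i : ℝ) + 1)) →
      |(∑ t, f t) / (W : ℝ) ^ X| ≤ m →
      ((univ.filter fun t : Fin X → Fin W => f t ≤ -(m + δ)).card : ℝ) ≤
        Real.exp (-(δ ^ 2 / (16 * ((h : ℝ) + 1) ^ 4))) * (W : ℝ) ^ X := by
    intro f hf hm'
    have h := Pool.Agent.V1181.BDiff.lower (ι := Fin X) (α := Fin W)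
      (fun i => 2 * ((h : ℝ) + 1) ^ 2 / ((i : ℝ) + 1))
      f (fun _ => by positivity) hf (8 * ((h : ℝ) + 1) ^ 4) δ (by positivity)
      (by
        calc ∑ i : Fin X, (2 * ((h : ℝ) + 1) ^ 2 / ((i : ℝ) + 1)) ^ 2
            = 4 * ((h : ℝ) + 1) ^ 4 * ∑ i : Fin X, 1 / ((i : ℝ) + 1) ^ 2 := by
              rw [mul_sum]
              refine sum_congr rfl fun i _ => ?_
              field_simp
              ring
          _ ≤ 4 * ((h : ℝ) + 1) ^ 4 * 2 := mul_le_mul_of_nonneg_left (sum_fin_sq X) (by positivity)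
          _ = _ := by ring)
      hδ
    simp only [Fintype.card_fin] at h
    refine le_trans ?_ (h.trans (le_of_eq ?_))
    · refine Nat.cast_le.2 (card_le_card fun t ht => ?_)
      have h1 := (mem_filter.1 ht).2
      refine mem_filter.2 ⟨mem_univ _, ?_⟩
      have h2 := (abs_le.1 hm').1
      linarith
    · congr 3
      ring
  have h1 := hlow (fun t => lcor l t A) (fun w i v => lcor_update hl w i v hA) hm
  have h2 := hlow (fun t => -lcor l t A) (fun w i v => by
    have := lcor_update hl w i v hA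
    rw [abs_sub_comm] at this
    have e : -lcor l (Function.update w i v) A - -lcor l w A =
      lcor l w A - lcor l (Function.update w i v) A := by ring
    rw [e]
    exact this) (by
    rw [sum_neg_distrib, neg_div, abs_neg]
    exact hm)
  have hsub : (univ.filter fun t : Fin X → Fin W => m + δ ≤ |lcor l t A|) ⊆
      (univ.filter fun t : Fin X → Fin W => lcor l t A ≤ -(m + δ)) ∪
      (univ.filter fun t : Fin X → Fin W => -lcor l t A ≤ -(m + δ)) := by
    intro t ht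
    have h3 := (mem_filter.1 ht).2
    rw [mem_union, mem_filter, mem_filter]
    rcases le_abs.1 h3 with h4 | h4
    · right
      exact ⟨mem_univ _, by linarith⟩
    · left
      exact ⟨mem_univ _, by linarith⟩
  have h3 := (card_le_card hsub).trans (card_union_le _ _)
  have h4 : ((univ.filter fun t : Fin X → Fin W => m + δ ≤ |lcor l t A|).card : ℝ) ≤
      ((univ.filter fun t : Fin X → Fin W => lcor l t A ≤ -(m + δ)).card : ℝ) +
      ((univ.filter fun t : Fin X → Fin W => -lcor l t A ≤ -(m + δ)).card : ℝ) := by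
    exact_mod_cast h3
  linarith

open Classical in
/-- All the logarithmic correlations with shifts at most `h` at the same time. -/
theorem chowla_log {l : ℕ → ℝ} (hl : ∀ n, |l n| ≤ 1) (hE : WinDual (fun n => ((l n : ℝ) : ℂ)))
    {ε : ℝ} (hε : 0 < ε) :
    ∃ W₀ : ℕ, ∀ h : ℕ, ∃ c : ℝ, 0 < c ∧ ∀ W : ℕ, W₀ ≤ W → ∃ X₀ : ℕ, ∀ X : ℕ, X₀ ≤ X →
      ((univ.filter fun t : Fin X → Fin W =>
        ¬ ∀ A ⊆ range (h + 1), A.Nonempty → |lcor l t A| ≤ ε * Real.log X).card : ℝ) ≤
      Real.exp (-(c * Real.log X ^ 2)) * (W : ℝ) ^ X := by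
  set δ : ℝ := ε / 8 with hδ
  have hδ0 : 0 < δ := by rw [hδ]; positivity
  obtain ⟨W₀, hW₀⟩ := hE δ hδ0
  refine ⟨max W₀ 1, fun h => ?_⟩
  set c : ℝ := (ε / 2) ^ 2 / (32 * ((h : ℝ) + 1) ^ 4) with hc
  have hc0 : 0 < c := by rw [hc]; positivity
  refine ⟨c, hc0, fun W hW => ?_⟩
  have hW1 : 1 ≤ W := (le_max_right _ _).trans hW
  obtain ⟨M₀, hM₀⟩ := hW₀ W ((le_max_left _ _).trans hW)
  -- large `X`
  have hlogt : Filter.Tendsto (fun X : ℕ => Real.log X) Filter.atTop Filter.atTop :=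
    Real.tendsto_log_atTop.comp tendsto_natCast_atTop_atTop
  obtain ⟨X₁, hX₁⟩ := Filter.eventually_atTop.1
    (hlogt.eventually_ge_atTop (max 1 (8 / ε * (((M₀ + h + 1 : ℕ) : ℝ) + 4 * δ))))
  obtain ⟨X₂, hX₂⟩ := Filter.eventually_atTop.1
    (hlogt.eventually_ge_atTop (1 / c * ((h : ℝ) + 2)))
  refine ⟨max (max X₁ X₂) 2, fun X hX => ?_⟩
  have hX1' : X₁ ≤ X := (le_max_left _ _).trans ((le_max_left _ _).trans hX)
  have hX2' : X₂ ≤ X := (le_max_right _ _).trans ((le_max_left _ _).trans hX)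
  have hX2 : 2 ≤ X := (le_max_right _ _).trans hX
  have hXr : (2 : ℝ) ≤ X := by exact_mod_cast hX2
  have hL1 := (le_max_left _ _).trans (hX₁ X hX1')
  have hL2 := (le_max_right _ _).trans (hX₁ X hX1')
  have hL3 := hX₂ X hX2'
  set L : ℝ := Real.log X with hL
  have hmean : ((M₀ + h + 1 : ℕ) : ℝ) + 2 * δ * (2 + Real.log (X + 1)) ≤ ε / 2 * L := by
    have h1 : Real.log ((X : ℝ) + 1) ≤ 1 + L := by
      have h2 : Real.log ((X : ℝ) + 1) ≤ Real.log (X * 2) :=
        Real.log_le_log (by positivity) (by linarith)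
      rw [Real.log_mul (by positivity) (by norm_num)] at h2
      have h3 : Real.log 2 ≤ 1 := by
        have := Real.log_two_lt_d9
        linarith
      linarith
    have h2 : ((M₀ + h + 1 : ℕ) : ℝ) + 4 * δ ≤ ε / 8 * L := by
      have h3 := mul_le_mul_of_nonneg_left hL2 (show 0 ≤ ε / 8 by positivity)
      have h4 : ε / 8 * (8 / ε * (((M₀ + h + 1 : ℕ) : ℝ) + 4 * δ)) =
          ((M₀ + h + 1 : ℕ) : ℝ) + 4 * δ := by
        field_simp
      linarith
    have h3 : 2 * δ * (2 + Real.log (X + 1)) ≤ 4 * δ + 2 * δ * (1 + L) := by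
      have := mul_le_mul_of_nonneg_left h1 (show 0 ≤ 2 * δ by positivity)
      linarith
    have h4 : 2 * δ * (1 + L) ≤ 2 * δ * (L + L) :=
      mul_le_mul_of_nonneg_left (by linarith) (by positivity)
    have h5 : 2 * δ * (L + L) = ε / 2 * L - 0 := by rw [hδ]; ring
    have h6 : 2 * δ * (1 + L) = ε / 4 + ε / 4 * L := by rw [hδ]; ring
    have h7 : ε / 4 ≤ ε / 8 * L + ε / 8 := by nlinarith
    nlinarith
  have hone : ∀ A ∈ (range (h + 1)).powerset.filter (fun A => A.Nonempty),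
      ((univ.filter fun t : Fin X → Fin W => ε / 2 * L + ε / 2 * L ≤ |lcor l t A|).card : ℝ) ≤
      2 * (Real.exp (-((ε / 2 * L) ^ 2 / (16 * ((h : ℝ) + 1) ^ 4))) * (W : ℝ) ^ X) := by
    intro A hA
    rw [mem_filter, mem_powerset] at hA
    obtain ⟨a₀, ha₀⟩ := hA.2
    have hm := lmean_le (X := X) hl hδ0.le hW1 (M₀ := M₀) (h := h)
      (hE := fun M hM F hF => hM₀ M hM F hF M le_rfl) ha₀
      (by have := mem_range.1 (hA.1 ha₀); omega)
    refine le_trans (le_of_eq ?_) (lcor_dev hl hW1 hA.1 (by positivity) (hm.trans hmean))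
    congr!
  have hsub : (univ.filter fun t : Fin X → Fin W =>
        ¬ ∀ A ⊆ range (h + 1), A.Nonempty → |lcor l t A| ≤ ε * L) ⊆
      ((range (h + 1)).powerset.filter (fun A => A.Nonempty)).biUnion fun A =>
        univ.filter fun t : Fin X → Fin W => ε / 2 * L + ε / 2 * L ≤ |lcor l t A| := by
    intro t ht
    have h1 : ¬ ∀ A ⊆ range (h + 1), A.Nonempty → |lcor l t A| ≤ ε * L := by
      simpa using ht
    push Not at h1
    obtain ⟨A, hA, hne, hlN⟩ := h1
    refine mem_biUnion.2 ⟨A, mem_filter.2 ⟨mem_powerset.2 hA, hne⟩, mem_filter.2 ⟨mem_univ _, ?_⟩⟩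
    have : ε / 2 * L + ε / 2 * L = ε * L := by ring
    rw [this]
    exact hlN.le
  have hcount : ((univ.filter fun t : Fin X → Fin W =>
        ¬ ∀ A ⊆ range (h + 1), A.Nonempty → |lcor l t A| ≤ ε * L).card : ℝ) ≤
      ∑ _A ∈ (range (h + 1)).powerset.filter (fun A => A.Nonempty),
        2 * (Real.exp (-((ε / 2 * L) ^ 2 / (16 * ((h : ℝ) + 1) ^ 4))) * (W : ℝ) ^ X) := by
    calc _ ≤ ((((range (h + 1)).powerset.filter (fun A => A.Nonempty)).biUnion fun A =>
        univ.filter fun t : Fin X → Fin W => ε / 2 * L + ε / 2 * L ≤ |lcor l t A|).card : ℝ) :=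
          Nat.cast_le.2 (card_le_card hsub)
      _ ≤ ((∑ A ∈ (range (h + 1)).powerset.filter (fun A => A.Nonempty),
        (univ.filter fun t : Fin X → Fin W =>
          ε / 2 * L + ε / 2 * L ≤ |lcor l t A|).card : ℕ) : ℝ) :=
          Nat.cast_le.2 card_biUnion_le
      _ ≤ _ := by
          push_cast
          exact sum_le_sum fun A hA => hone A hA
  refine hcount.trans ?_
  rw [sum_const, nsmul_eq_mul]
  have hWp : (0 : ℝ) < (W : ℝ) ^ X := by
    have : (0 : ℝ) < W := by exact_mod_cast hW1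
    positivity
  have hcard : ((((range (h + 1)).powerset.filter (fun A => A.Nonempty)).card : ℕ) : ℝ) ≤
      2 ^ (h + 1) := by
    have := card_filter_le (range (h + 1)).powerset (fun A => A.Nonempty)
    rw [card_powerset, card_range] at this
    exact_mod_cast this
  have hδc : (ε / 2 * L) ^ 2 / (16 * ((h : ℝ) + 1) ^ 4) = 2 * c * L ^ 2 := by
    rw [hc]
    field_simp
    ring
  rw [hδc]
  have h2e : (2 : ℝ) ^ (h + 1) * 2 ≤ Real.exp (c * L ^ 2) := by
    have h1 : (2 : ℝ) ^ (h + 1) * 2 = 2 ^ (h + 2) := by ring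
    rw [h1]
    have h3 : (2 : ℝ) ^ (h + 2) ≤ Real.exp 1 ^ (h + 2) := by
      have := Real.exp_one_gt_d9
      exact pow_le_pow_left₀ (by norm_num) (by linarith) _
    refine h3.trans ?_
    rw [← Real.exp_nat_mul]
    refine Real.exp_le_exp.2 ?_
    have h4 : (h : ℝ) + 2 ≤ c * L := by
      have h5 := mul_le_mul_of_nonneg_left hL3 hc0.le
      have h6 : c * (1 / c * ((h : ℝ) + 2)) = (h : ℝ) + 2 := by field_simp
      linarith
    push_cast
    have h7 : c * L ≤ c * L ^ 2 := by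
      have : L ≤ L ^ 2 := by nlinarith
      exact mul_le_mul_of_nonneg_left this hc0.le
    linarith
  calc ((((range (h + 1)).powerset.filter (fun A => A.Nonempty)).card : ℕ) : ℝ) *
        (2 * (Real.exp (-(2 * c * L ^ 2)) * (W : ℝ) ^ X))
      ≤ 2 ^ (h + 1) * (2 * (Real.exp (-(2 * c * L ^ 2)) * (W : ℝ) ^ X)) :=
        mul_le_mul_of_nonneg_right hcard (by positivity)
    _ = (2 ^ (h + 1) * 2) * (Real.exp (-(2 * c * L ^ 2)) * (W : ℝ) ^ X) := by ring
    _ ≤ Real.exp (c * L ^ 2) * (Real.exp (-(2 * c * L ^ 2)) * (W : ℝ) ^ X) :=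
        mul_le_mul_of_nonneg_right h2e (by positivity)
    _ = Real.exp (-(c * L ^ 2)) * (W : ℝ) ^ X := by
        rw [← mul_assoc, ← Real.exp_add]
        congr 2
        ring

end Pool.Agent.V11298.SR
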