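import Pool.Agent.V11298.SR.Cho

/-!
Correlations of a randomly perturbed sequence: logarithmic averages.
-/

set_option autoImplicit false

open Finset

namespace Pool.Agent.V11298.SR

/-- The logarithmic correlations of the perturbed sequence. -/
noncomputable def lcor (l : ℕ → ℝ) {X W : ℕ} (t : Fin X → Fin W) (A : Finset ℕ) : ℝ :=
  ∑ n ∈ Icc 1 X, (1 / (n : ℝ)) * ∏ a ∈ A, pert l t (n + a)

/-- Partial summation. -/
theorem log_sum {G : ℕ → ℝ} {ε : ℝ} {N₀ X : ℕ} (hε : 0 ≤ ε) (hN₀ : 1 ≤ N₀)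
    (hG : ∀ n, |G n| ≤ 1) (hS : ∀ N, N₀ ≤ N → N ≤ X → |∑ n ∈ Icc 1 N, G n| ≤ ε * N) :
    |∑ n ∈ Icc 1 X, (1 / (n : ℝ)) * G n| ≤ N₀ + ε * (2 + Real.log (X + 1)) := by
  -- the sum up to `M` is `S M / M` plus the sum of `S n / (n (n + 1))`
  have hid : ∀ M : ℕ, ∑ n ∈ Icc 1 (M + 1), (1 / (n : ℝ)) * G n =
      (∑ n ∈ Icc 1 (M + 1), G n) / ((M : ℝ) + 1) +
        ∑ n ∈ Icc 1 M, (∑ i ∈ Icc 1 n, G i) * (1 / (n : ℝ) - 1 / ((n : ℝ) + 1)) := by
    intro M
    induction M with
    | zero => simp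
    | succ M ih =>
      rw [sum_Icc_succ_top (by omega), ih, sum_Icc_succ_top (b := M + 1) (by omega),
        sum_Icc_succ_top (b := M) (f := fun n => (∑ i ∈ Icc 1 n, G i) *
          (1 / (n : ℝ) - 1 / ((n : ℝ) + 1))) (by omega)]
      push_cast
      have h1 : (M : ℝ) + 1 ≠ 0 := by positivity
      have h2 : (M : ℝ) + 1 + 1 ≠ 0 := by positivity
      field_simp
      ring
  have hvol : ∀ n : ℕ, |∑ i ∈ Icc 1 n, G i| ≤ n := by
    intro n
    refine (abs_sum_le_sum_abs _ _).trans ((sum_le_sum fun i _ => hG i).trans ?_)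
    simp
  have hharm : ∀ M : ℕ, ∑ n ∈ Icc 1 M, 1 / ((n : ℝ) + 1) ≤ Real.log (M + 1) := by
    intro M
    induction M with
    | zero => simp
    | succ M ih =>
      rw [sum_Icc_succ_top (by omega)]
      have h1 : (0 : ℝ) < (M : ℝ) + 1 := by positivity
      have h2 := Real.one_sub_inv_le_log_of_pos (show (0 : ℝ) < ((M : ℝ) + 1 + 1) / ((M : ℝ) + 1) by
        positivity)
      rw [Real.log_div (by positivity) (by positivity)] at h2
      have h3 : 1 - (((M : ℝ) + 1 + 1) / ((M : ℝ) + 1))⁻¹ = 1 / ((M : ℝ) + 1 + 1) := by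
        field_simp
        ring
      rw [h3] at h2
      push_cast
      linarith
  rcases Nat.eq_zero_or_pos X with hX | hX
  · subst hX
    simp
    positivity
  obtain ⟨M, rfl⟩ : ∃ M, X = M + 1 := ⟨X - 1, by omega⟩
  rw [hid M]
  have h1 : |(∑ n ∈ Icc 1 (M + 1), G n) / ((M : ℝ) + 1)| ≤ 1 + ε := by
    rw [abs_div, abs_of_pos (show (0 : ℝ) < (M : ℝ) + 1 by positivity), div_le_iff₀ (by positivity)]
    have := hvol (M + 1)
    push_cast at this
    have h0 : 0 ≤ ε * ((M : ℝ) + 1) := by positivity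
    linarith
  have h2 : |∑ n ∈ Icc 1 M, (∑ i ∈ Icc 1 n, G i) * (1 / (n : ℝ) - 1 / ((n : ℝ) + 1))| ≤
      (N₀ - 1) + ε * Real.log (M + 1) := by
    have h3 : ∀ n ∈ Icc 1 M, |(∑ i ∈ Icc 1 n, G i) * (1 / (n : ℝ) - 1 / ((n : ℝ) + 1))| ≤
        (if n < N₀ then 1 else 0) + ε * (1 / ((n : ℝ) + 1)) := by
      intro n hn
      have hn1 := mem_Icc.1 hn
      have hn0 : (0 : ℝ) < n := by exact_mod_cast hn1.1
      have h4 : 1 / (n : ℝ) - 1 / ((n : ℝ) + 1) = 1 / n * (1 / ((n : ℝ) + 1)) := by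
        field_simp
        ring
      rw [h4, abs_mul, abs_of_pos (show (0 : ℝ) < 1 / n * (1 / ((n : ℝ) + 1)) by positivity)]
      by_cases h5 : n < N₀
      · rw [if_pos h5]
        have h6 : |∑ i ∈ Icc 1 n, G i| * (1 / n * (1 / ((n : ℝ) + 1))) ≤
            n * (1 / n * (1 / ((n : ℝ) + 1))) :=
          mul_le_mul_of_nonneg_right (hvol n) (by positivity)
        have h7 : (n : ℝ) * (1 / n * (1 / ((n : ℝ) + 1))) = 1 / ((n : ℝ) + 1) := by
          field_simp
        have h8 : 1 / ((n : ℝ) + 1) ≤ 1 := by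
          rw [div_le_one (by positivity)]
          linarith
        have h9 : 0 ≤ ε * (1 / ((n : ℝ) + 1)) := by positivity
        linarith
      · rw [if_neg h5]
        have h6 : |∑ i ∈ Icc 1 n, G i| * (1 / n * (1 / ((n : ℝ) + 1))) ≤
            (ε * n) * (1 / n * (1 / ((n : ℝ) + 1))) :=
          mul_le_mul_of_nonneg_right (hS n (by omega) (by omega)) (by positivity)
        have h7 : (ε * n) * (1 / n * (1 / ((n : ℝ) + 1))) = ε * (1 / ((n : ℝ) + 1)) := by
          field_simp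
        linarith
    refine (abs_sum_le_sum_abs _ _).trans ((sum_le_sum h3).trans ?_)
    rw [sum_add_distrib, ← mul_sum, ← sum_filter, sum_const, nsmul_eq_mul, mul_one]
    refine add_le_add ?_ (mul_le_mul_of_nonneg_left (hharm M) hε)
    have h4 : (Icc 1 M).filter (fun n => n < N₀) ⊆ Ico 1 N₀ := by
      intro n hn
      rw [mem_filter, mem_Icc] at hn
      rw [mem_Ico]
      omega
    have h5 := card_le_card h4
    rw [Nat.card_Ico] at h5
    have h6 : ((N₀ - 1 : ℕ) : ℝ) = (N₀ : ℝ) - 1 := by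
      rw [Nat.cast_sub hN₀]
      simp
    rw [← h6]
    exact_mod_cast h5
  have h3 : Real.log ((M : ℝ) + 1) ≤ Real.log (((M + 1 : ℕ) : ℝ) + 1) := by
    refine Real.log_le_log (by positivity) ?_
    push_cast
    linarith
  calc _ ≤ (1 + ε) + ((N₀ - 1) + ε * Real.log (M + 1)) := (abs_add_le _ _).trans (add_le_add h1 h2)
    _ ≤ (1 + ε) + ((N₀ - 1) + ε * Real.log (((M + 1 : ℕ) : ℝ) + 1)) := by
        have := mul_le_mul_of_nonneg_left h3 hε
        linarith
    _ ≤ _ := by linarith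

theorem lmean_le {l : ℕ → ℝ} (hl : ∀ n, |l n| ≤ 1) {X W M₀ h : ℕ} {δ : ℝ} (hδ : 0 ≤ δ) (hW : 1 ≤ W)
    (hE : ∀ M : ℕ, M₀ ≤ M → ∀ F : ℕ → ℂ, (∀ n, ‖F n‖ ≤ 1) →
      ‖∑ n ∈ Icc 1 M, F n * ∑ j ∈ range W, ((l (n + j) : ℝ) : ℂ)‖ ≤ δ * W * M)
    {A : Finset ℕ} {a₀ : ℕ} (ha : a₀ ∈ A) (hah : a₀ ≤ h) :
    |(∑ t : Fin X → Fin W, lcor l t A) / (W : ℝ) ^ X| ≤
      ((M₀ + h + 1 : ℕ) : ℝ) + 2 * δ * (2 + Real.log (X + 1)) := by
  have hW0 : (0 : ℝ) < W := by exact_mod_cast hW
  set u : (Fin X → Fin W) → ℕ → ℝ := fun t n => ∏ a ∈ A.erase a₀, pert l t (n + a) with hu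
  have hub : ∀ t n, |u t n| ≤ 1 := fun t n => prod_le hl t _ n
  set B : ℕ → ℝ := fun m => ∑ j ∈ range W, l (m + j) with hB
  have hBb : ∀ m, |B m| ≤ W := by
    intro m
    refine (abs_sum_le_sum_abs _ _).trans ((sum_le_sum fun j _ => hl _).trans ?_)
    simp
  have hprod : ∀ (t : Fin X → Fin W) (n : ℕ), ∏ a ∈ A, pert l t (n + a) =
      pert l t (n + a₀) * u t n := fun t n => (mul_prod_erase A _ ha).symm
  have key : (W : ℝ) * ∑ t : Fin X → Fin W, lcor l t A =
      ∑ t : Fin X → Fin W, ∑ n ∈ Icc 1 X, (1 / (n : ℝ)) *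
        (if n + a₀ ≤ X then u t n * B (n + a₀) else 0) := by
    simp only [lcor]
    rw [sum_comm, sum_comm (s := (univ : Finset (Fin X → Fin W))), mul_sum]
    refine sum_congr rfl fun n hn => ?_
    have hn1 := (mem_Icc.1 hn).1
    rw [← mul_sum, ← mul_sum, mul_left_comm]
    congr 1
    by_cases hnX : n + a₀ ≤ X
    · simp only [if_pos hnX]
      rw [← swap (⟨n + a₀ - 1, by omega⟩ : Fin X) (fun t => ∏ a ∈ A, pert l t (n + a))]
      refine sum_congr rfl fun t _ => ?_
      rw [hB, mul_sum]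
      rw [← Fin.sum_univ_eq_sum_range (fun j => u t n * l (n + a₀ + j)) W]
      refine sum_congr rfl fun j _ => ?_
      rw [hprod]
      have h1 : u (Function.update t ⟨n + a₀ - 1, by omega⟩ j) n = u t n := by
        simp only [hu]
        refine prod_congr rfl fun a haa => ?_
        refine pert_update l t _ j _ ?_
        have := (mem_erase.1 haa).1
        simp only
        omega
      have h2 : pert l (Function.update t ⟨n + a₀ - 1, by omega⟩ j) (n + a₀) =
          l (n + a₀ + (j : ℕ)) := by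
        unfold pert
        rw [dif_pos ⟨by omega, hnX⟩, Function.update_self]
      rw [h1, h2]
      ring
    · simp only [if_neg hnX, sum_const_zero]
      rw [sum_eq_zero, mul_zero]
      intro t _
      rw [hprod]
      have h2 : pert l t (n + a₀) = 0 := by
        unfold pert
        rw [dif_neg (by omega)]
      rw [h2, zero_mul]
  have hone : ∀ t : Fin X → Fin W,
      |∑ n ∈ Icc 1 X, (1 / (n : ℝ)) * (if n + a₀ ≤ X then u t n * B (n + a₀) else 0)| ≤
        W * (((M₀ + h + 1 : ℕ) : ℝ) + 2 * δ * (2 + Real.log (X + 1))) := by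
    intro t
    set G : ℕ → ℝ := fun n => (if n + a₀ ≤ X then u t n * B (n + a₀) else 0) / W with hG
    have hG1 : ∀ n, |G n| ≤ 1 := by
      intro n
      simp only [hG]
      rw [abs_div, abs_of_pos hW0, div_le_one hW0]
      split_ifs
      · rw [abs_mul]
        calc |u t n| * |B (n + a₀)| ≤ 1 * W := mul_le_mul (hub _ _) (hBb _) (abs_nonneg _) (by norm_num)
          _ = W := one_mul _
      · simp
    have hGS : ∀ N, M₀ + h + 1 ≤ N → N ≤ X → |∑ n ∈ Icc 1 N, G n| ≤ 2 * δ * N := by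
      intro N hN hNX
      set Fr : ℕ → ℝ := fun m => if a₀ < m ∧ m ≤ X then u t (m - a₀) else 0 with hFr
      have h1 : ∑ n ∈ Icc 1 N, (if n + a₀ ≤ X then u t n * B (n + a₀) else 0) =
          ∑ m ∈ Icc 1 (N + a₀), Fr m * B m := by
        rw [← sum_filter]
        have h2 : ∑ m ∈ Icc 1 (N + a₀), Fr m * B m =
            ∑ m ∈ (Icc 1 (N + a₀)).filter (fun m => a₀ < m ∧ m ≤ X), u t (m - a₀) * B m := by
          rw [sum_filter]
          refine sum_congr rfl fun m _ => ?_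
          simp only [hFr]
          split_ifs
          · rfl
          · rw [zero_mul]
        rw [h2]
        refine sum_bij (fun n _ => n + a₀) ?_ ?_ ?_ ?_
        · intro n hn
          rw [mem_filter, mem_Icc] at hn
          rw [mem_filter, mem_Icc]
          omega
        · intro n _ n' _ h3
          omega
        · intro m hm
          rw [mem_filter, mem_Icc] at hm
          refine ⟨m - a₀, ?_, ?_⟩
          · rw [mem_filter, mem_Icc]
            omega
          · omega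
        · intro n _
          rw [Nat.add_sub_cancel]
      have h2 := hE (N + a₀) (by omega) (fun m => ((Fr m : ℝ) : ℂ)) (by
        intro m
        rw [Complex.norm_real, Real.norm_eq_abs]
        simp only [hFr]
        split_ifs
        · exact hub _ _
        · simp)
      have h3 : ∑ n ∈ Icc 1 (N + a₀), ((Fr n : ℝ) : ℂ) * ∑ j ∈ range W, ((l (n + j) : ℝ) : ℂ) =
          ((∑ m ∈ Icc 1 (N + a₀), Fr m * B m : ℝ) : ℂ) := by
        simp only [hB]
        push_cast
        rfl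
      rw [h3, Complex.norm_real, Real.norm_eq_abs, ← h1] at h2
      simp only [hG]
      rw [← sum_div, abs_div, abs_of_pos hW0, div_le_iff₀ hW0]
      refine h2.trans ?_
      have h4 : ((N + a₀ : ℕ) : ℝ) ≤ 2 * N := by
        exact_mod_cast (by omega : N + a₀ ≤ 2 * N)
      calc δ * W * ((N + a₀ : ℕ) : ℝ) ≤ δ * W * (2 * N) :=
            mul_le_mul_of_nonneg_left h4 (by positivity)
        _ = 2 * δ * N * W := by ring
    have h5 := log_sum (ε := 2 * δ) (by positivity) (by omega : 1 ≤ M₀ + h + 1) hG1 hGS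
    have h6 : ∑ n ∈ Icc 1 X, (1 / (n : ℝ)) * (if n + a₀ ≤ X then u t n * B (n + a₀) else 0) =
        W * ∑ n ∈ Icc 1 X, (1 / (n : ℝ)) * G n := by
      rw [mul_sum]
      refine sum_congr rfl fun n _ => ?_
      simp only [hG]
      field_simp
    rw [h6, abs_mul, abs_of_pos hW0]
    exact mul_le_mul_of_nonneg_left h5 hW0.le
  have h4 : |(W : ℝ) * ∑ t : Fin X → Fin W, lcor l t A| ≤
      (W : ℝ) ^ X * (W * (((M₀ + h + 1 : ℕ) : ℝ) + 2 * δ * (2 + Real.log (X + 1)))) := by
    rw [key]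
    refine (abs_sum_le_sum_abs _ _).trans ((sum_le_sum fun t _ => hone t).trans (le_of_eq ?_))
    rw [sum_const, card_univ, nsmul_eq_mul]
    simp
  rw [abs_mul, abs_of_pos hW0] at h4
  rw [abs_div, abs_of_pos (show (0 : ℝ) < (W : ℝ) ^ X by positivity), div_le_iff₀ (by positivity)]
  refine le_of_mul_le_mul_left (h4.trans (le_of_eq ?_)) hW0
  ring

end Pool.Agent.V11298.SR
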