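import Pool.Agent.V11298.SR.Cls

/-!
Randomly perturbed values of a multiplicative function: short intervals and polynomial phases.
-/

set_option autoImplicit false

open Finset

namespace Pool.Agent.V11298.SR

/-- `e(u) = exp(2 π i u)`. -/
noncomputable def eu (u : ℝ) : ℂ := Complex.exp (Complex.I * ((2 * Real.pi * u : ℝ) : ℂ))

theorem eu_norm (u : ℝ) : ‖eu u‖ = 1 := by
  unfold eu
  rw [mul_comm]
  exact Complex.norm_exp_ofReal_mul_I _

theorem eu_add (u v : ℝ) : eu (u + v) = eu u * eu v := by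
  unfold eu
  rw [← Complex.exp_add]
  congr 1
  push_cast
  ring

theorem eu_int (z : ℤ) : eu z = 1 := by
  unfold eu
  rw [Complex.exp_eq_one_iff]
  refine ⟨z, ?_⟩
  push_cast
  ring

theorem eu_sub (u v : ℝ) : ‖eu u - eu v‖ ≤ 2 * Real.pi * |u - v| := by
  have h1 : eu u - eu v = eu v * (eu (u - v) - 1) := by
    rw [mul_sub, ← eu_add, mul_one]
    congr 2
    ring
  rw [h1, norm_mul, eu_norm, one_mul]
  refine (Real.norm_exp_I_mul_ofReal_sub_one_le).trans (le_of_eq ?_)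
  rw [Real.norm_eq_abs, abs_mul, abs_of_pos (by positivity)]

/-- A net for the polynomial phases of degree at most `k` on a short interval. -/
theorem net (k : ℕ) {M H : ℕ} (hM : 1 ≤ M) (hH : 1 ≤ H) (β : Fin (k + 1) → ℝ) :
    ∃ a : Fin (k + 1) → Fin M, ∀ m : ℕ, m ≤ H →
      ‖eu (∑ j, β j * (m : ℝ) ^ (j : ℕ)) - eu (∑ j, ((a j : ℕ) : ℝ) / M * (m : ℝ) ^ (j : ℕ))‖ ≤
        2 * Real.pi * ((k + 1) * (H : ℝ) ^ k / M) := by
  have hM0 : (0 : ℝ) < M := by exact_mod_cast hM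
  have hH1 : (1 : ℝ) ≤ H := by exact_mod_cast hH
  have hlt : ∀ j, ⌊(M : ℝ) * Int.fract (β j)⌋₊ < M := by
    intro j
    rw [Nat.floor_lt (by have := Int.fract_nonneg (β j); positivity)]
    have := Int.fract_lt_one (β j)
    nlinarith
  refine ⟨fun j => ⟨⌊(M : ℝ) * Int.fract (β j)⌋₊, hlt j⟩, fun m hm => ?_⟩
  have hmH : (m : ℝ) ≤ H := by exact_mod_cast hm
  have h1 : eu (∑ j, β j * (m : ℝ) ^ (j : ℕ)) = eu (∑ j, Int.fract (β j) * (m : ℝ) ^ (j : ℕ)) := by
    have h2 : ∑ j, β j * (m : ℝ) ^ (j : ℕ) = ∑ j, Int.fract (β j) * (m : ℝ) ^ (j : ℕ) +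
        ((∑ j, ⌊β j⌋ * (m : ℤ) ^ (j : ℕ) : ℤ) : ℝ) := by
      push_cast
      rw [← sum_add_distrib]
      refine sum_congr rfl fun j _ => ?_
      rw [← add_mul, Int.fract_add_floor]
    rw [h2, eu_add, eu_int, mul_one]
  rw [h1]
  refine (eu_sub _ _).trans (mul_le_mul_of_nonneg_left ?_ (by positivity))
  rw [← sum_sub_distrib]
  refine (abs_sum_le_sum_abs _ _).trans ?_
  calc ∑ j : Fin (k + 1), |Int.fract (β j) * (m : ℝ) ^ (j : ℕ) -
        ((⌊(M : ℝ) * Int.fract (β j)⌋₊ : ℕ) : ℝ) / M * (m : ℝ) ^ (j : ℕ)|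
      ≤ ∑ _j : Fin (k + 1), (H : ℝ) ^ k / M := by
        refine sum_le_sum fun j _ => ?_
        rw [← sub_mul, abs_mul]
        have h3 : |Int.fract (β j) - ((⌊(M : ℝ) * Int.fract (β j)⌋₊ : ℕ) : ℝ) / M| ≤ 1 / M := by
          have h4 := Nat.floor_le (show 0 ≤ (M : ℝ) * Int.fract (β j) by
            have := Int.fract_nonneg (β j); positivity)
          have h5 := Nat.lt_floor_add_one ((M : ℝ) * Int.fract (β j))
          have h6 : Int.fract (β j) - ((⌊(M : ℝ) * Int.fract (β j)⌋₊ : ℕ) : ℝ) / M =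
              ((M : ℝ) * Int.fract (β j) - ((⌊(M : ℝ) * Int.fract (β j)⌋₊ : ℕ) : ℝ)) / M := by
            field_simp
          rw [h6, abs_of_nonneg (div_nonneg (by linarith) hM0.le)]
          exact div_le_div_of_nonneg_right (by linarith) hM0.le
        have h7 : |(m : ℝ) ^ (j : ℕ)| ≤ (H : ℝ) ^ k := by
          rw [abs_of_nonneg (by positivity)]
          calc (m : ℝ) ^ (j : ℕ) ≤ (H : ℝ) ^ (j : ℕ) := pow_le_pow_left₀ (by positivity) hmH _
            _ ≤ (H : ℝ) ^ k := pow_le_pow_right₀ hH1 (by have := j.2; omega)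
        calc _ ≤ 1 / (M : ℝ) * (H : ℝ) ^ k := mul_le_mul h3 h7 (abs_nonneg _) (by positivity)
          _ = _ := by ring
    _ = (k + 1) * (H : ℝ) ^ k / M := by
        rw [sum_const, card_univ, Fintype.card_fin, nsmul_eq_mul]
        push_cast
        ring

open Classical in
/-- Polynomial phases on short intervals. -/
theorem phases {h : ℕ → ℂ} (hh : ∀ n, ‖h n‖ ≤ 1) (hE : WinDual h) {ε : ℝ} (hε : 0 < ε) (k : ℕ) :
    ∃ c : ℝ, 0 < c ∧ ∃ W₀ H₀ : ℕ, ∀ W : ℕ, W₀ ≤ W → ∀ H : ℕ, H₀ ≤ H → ∃ X₀ : ℕ,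
      ∀ X : ℕ, X₀ ≤ X →
      ((univ.filter fun t : Fin X → Fin W =>
        ¬ ∀ P : ℕ → Polynomial ℝ, (∀ x, (P x).natDegree ≤ k) →
          ∑ x ∈ range X, ‖∑ i : Fin X, if x ≤ (i : ℕ) ∧ (i : ℕ) < x + H then
            h (i + 1 + (t i : ℕ)) * eu ((P x).eval ((i : ℝ) + 1)) else 0‖ ≤ ε * H * X).card : ℝ) ≤
      Real.exp (-(c * X)) * (W : ℝ) ^ X := by
  obtain ⟨c, hc, W₀, hW₀⟩ := classes hh hE (ε := ε / 2) (by positivity)
  set C : ℝ := 4 * Real.pi * (k + 1) / ε + 2 with hC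
  have hC0 : 0 < C := by rw [hC]; positivity
  have hlarge : ∀ᶠ H : ℕ in Filter.atTop, 5 * (C * (H : ℝ) ^ k) ^ (k + 1) ≤ Real.exp (c * H) := by
    have h1 := (isLittleO_pow_exp_pos_mul_atTop (k * (k + 1)) hc).bound
      (show (0 : ℝ) < 1 / (5 * C ^ (k + 1)) by positivity)
    filter_upwards [(tendsto_natCast_atTop_atTop (R := ℝ)).eventually h1] with H hH
    rw [Real.norm_of_nonneg (by positivity), Real.norm_of_nonneg (by positivity)] at hH
    rw [mul_pow, ← pow_mul]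
    rw [one_div, ← div_eq_inv_mul, le_div_iff₀ (by positivity)] at hH
    linarith
  obtain ⟨H₁, hH₁⟩ := Filter.eventually_atTop.1 hlarge
  refine ⟨c, hc, W₀, max H₁ 1, fun W hW H hH => ?_⟩
  have hH1 : 1 ≤ H := (le_max_right _ _).trans hH
  have hH1r : (1 : ℝ) ≤ H := by exact_mod_cast hH1
  obtain ⟨X₀, hX₀⟩ := hW₀ W hW H hH1
  refine ⟨X₀, fun X hX => ?_⟩
  set M : ℕ := ⌈4 * Real.pi * (k + 1) * (H : ℝ) ^ k / ε⌉₊ + 1 with hM
  have hM1 : 1 ≤ M := by omega
  have hM0 : (0 : ℝ) < M := by exact_mod_cast hM1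
  have hMlow : 4 * Real.pi * (k + 1) * (H : ℝ) ^ k / ε ≤ M := by
    refine (Nat.le_ceil _).trans (Nat.cast_le.2 ?_)
    rw [hM]
    exact Nat.le_succ _
  have hHk : (1 : ℝ) ≤ (H : ℝ) ^ k := one_le_pow₀ hH1r
  have hMup : (M : ℝ) ≤ C * (H : ℝ) ^ k := by
    have h1 := (Nat.ceil_lt_add_one (show 0 ≤ 4 * Real.pi * (k + 1) * (H : ℝ) ^ k / ε by
      positivity)).le
    have h2 : (M : ℝ) = (⌈4 * Real.pi * (k + 1) * (H : ℝ) ^ k / ε⌉₊ : ℝ) + 1 := by
      rw [hM]; push_cast; ring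
    have h3 : C * (H : ℝ) ^ k = 4 * Real.pi * (k + 1) * (H : ℝ) ^ k / ε + 2 * (H : ℝ) ^ k := by
      rw [hC]; ring
    rw [h2, h3]
    linarith
  have hκ : 5 * (Fintype.card (Fin (k + 1) → Fin M) : ℝ) ≤ Real.exp (c * H) := by
    have h1 : (Fintype.card (Fin (k + 1) → Fin M) : ℝ) = (M : ℝ) ^ (k + 1) := by
      simp
    rw [h1]
    refine le_trans ?_ (hH₁ H ((le_max_left _ _).trans hH))
    gcongr
  set g : (Fin (k + 1) → Fin M) → ℕ → ℂ := fun a m =>
    eu (∑ j, ((a j : ℕ) : ℝ) / M * (m : ℝ) ^ (j : ℕ)) with hg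
  have hcl := hX₀ X hX (Fin (k + 1) → Fin M) g hκ (fun a n => (eu_norm _).le)
  refine le_trans ?_ hcl
  refine Nat.cast_le.2 (card_le_card fun t ht => ?_)
  have h1 := (mem_filter.1 ht).2
  refine mem_filter.2 ⟨mem_univ _, fun hall => h1 ?_⟩
  intro P hP
  choose a ha using fun x : ℕ => net k hM1 hH1 (fun j : Fin (k + 1) =>
    ((P x).comp (Polynomial.X + Polynomial.C ((x : ℝ) + 1))).coeff (j : ℕ))
  have hev : ∀ x i : ℕ, x ≤ i → (P x).eval ((i : ℝ) + 1) =
      ∑ j : Fin (k + 1), ((P x).comp (Polynomial.X + Polynomial.C ((x : ℝ) + 1))).coeff (j : ℕ) *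
        (((i - x : ℕ) : ℝ)) ^ (j : ℕ) := by
    intro x i hxi
    have h2 : ((P x).comp (Polynomial.X + Polynomial.C ((x : ℝ) + 1))).natDegree < k + 1 := by
      refine Nat.lt_succ_of_le (Polynomial.natDegree_comp_le.trans ?_)
      rw [Polynomial.natDegree_X_add_C, mul_one]
      exact hP x
    have h3 := Polynomial.eval_eq_sum_range' h2 (((i - x : ℕ) : ℝ))
    rw [Fin.sum_univ_eq_sum_range (fun j =>
      ((P x).comp (Polynomial.X + Polynomial.C ((x : ℝ) + 1))).coeff j *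
        (((i - x : ℕ) : ℝ)) ^ j) (k + 1), ← h3, Polynomial.eval_comp]
    congr 1
    simp only [Polynomial.eval_add, Polynomial.eval_X, Polynomial.eval_C]
    rw [Nat.cast_sub hxi]
    ring
  have hx : ∀ x ∈ range X, ‖∑ i : Fin X, if x ≤ (i : ℕ) ∧ (i : ℕ) < x + H then
            h (i + 1 + (t i : ℕ)) * eu ((P x).eval ((i : ℝ) + 1)) else 0‖ ≤
      ‖wsum h t H x (g (a x))‖ + ε / 2 * H := by
    intro x _
    have h2 : ‖(∑ i : Fin X, if x ≤ (i : ℕ) ∧ (i : ℕ) < x + H then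
            h (i + 1 + (t i : ℕ)) * eu ((P x).eval ((i : ℝ) + 1)) else 0) -
        wsum h t H x (g (a x))‖ ≤ ε / 2 * H := by
      unfold wsum
      rw [← sum_sub_distrib]
      refine (norm_sum_le _ _).trans ?_
      calc ∑ i : Fin X, ‖(if x ≤ (i : ℕ) ∧ (i : ℕ) < x + H then
            h (i + 1 + (t i : ℕ)) * eu ((P x).eval ((i : ℝ) + 1)) else 0) -
            (if x ≤ (i : ℕ) ∧ (i : ℕ) < x + H then h (i + 1 + (t i : ℕ)) * g (a x) (i - x) else 0)‖
          ≤ ∑ i : Fin X, (if x ≤ (i : ℕ) ∧ (i : ℕ) < x + H then ε / 2 else 0) := by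
            refine sum_le_sum fun i _ => ?_
            split_ifs with hi
            · rw [← mul_sub, norm_mul, hev x i hi.1]
              have h3 := ha x (i - x) (by omega)
              have h4 : 2 * Real.pi * ((k + 1) * (H : ℝ) ^ k / M) ≤ ε / 2 := by
                rw [div_le_iff₀ hε] at hMlow
                rw [mul_div_assoc', div_le_iff₀ hM0]
                linarith
              calc _ ≤ 1 * (ε / 2) := mul_le_mul (hh _) (h3.trans h4) (norm_nonneg _) (by norm_num)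
                _ = ε / 2 := one_mul _
            · simp
        _ = ∑ i ∈ range X, (if x ≤ i ∧ i < x + H then ε / 2 else 0) :=
            Fin.sum_univ_eq_sum_range (fun i => if x ≤ i ∧ i < x + H then ε / 2 else 0) X
        _ = ((range X).filter fun i => x ≤ i ∧ i < x + H).card * (ε / 2) := by
            rw [← sum_filter, sum_const, nsmul_eq_mul]
        _ ≤ H * (ε / 2) := by
            refine mul_le_mul_of_nonneg_right ?_ (by positivity)
            have h5 : (range X).filter (fun i => x ≤ i ∧ i < x + H) ⊆ Ico x (x + H) := by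
              intro i hi
              rw [mem_filter] at hi
              exact mem_Ico.2 hi.2
            have h6 := card_le_card h5
            rw [Nat.card_Ico, Nat.add_sub_cancel_left] at h6
            exact_mod_cast h6
        _ = ε / 2 * H := mul_comm _ _
    calc _ = ‖((∑ i : Fin X, if x ≤ (i : ℕ) ∧ (i : ℕ) < x + H then
            h (i + 1 + (t i : ℕ)) * eu ((P x).eval ((i : ℝ) + 1)) else 0) -
        wsum h t H x (g (a x))) + wsum h t H x (g (a x))‖ := by rw [sub_add_cancel]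
      _ ≤ ε / 2 * H + ‖wsum h t H x (g (a x))‖ := (norm_add_le _ _).trans (by linarith)
      _ = _ := add_comm _ _
  refine (sum_le_sum hx).trans ?_
  rw [sum_add_distrib, sum_const, card_range, nsmul_eq_mul]
  have h7 := hall a
  calc _ ≤ ε / 2 * H * X + X * (ε / 2 * H) := by linarith
    _ = ε * H * X := by ring

end Pool.Agent.V11298.SR
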